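import Mathlib

/-!
# Barnes multiple zeta functions with Liouville weights: statements of the parts

Disproof of the Lindelöf-type bound (`MP_fcb754_nt`, frozen statement `S19070`) and of the moment
bounds (`MP_047497_nt`).  `r = 3`, `a = 1`, `w = (1, θ, θ²)` with a Liouville number `θ ∈ (0, 1)`, so
`d = 3` and the threshold is `r - d / 2 = 3 / 2`.
-/

set_option autoImplicit false

namespace Pool.Agent.H337_barnes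

open Complex

noncomputable section

/-- the numbers `1 + m · w` -/
def lam (w : Fin 3 → ℝ) (m : Fin 3 → ℕ) : ℝ := 1 + ∑ j, (m j : ℝ) * w j

/-- the Dirichlet series -/
def Z (w : Fin 3 → ℝ) (s : ℂ) : ℂ := ∑' m : Fin 3 → ℕ, ((lam w m : ℝ) : ℂ) ^ (-s)

/-- the weights are in `(0, 1]` -/
def Wt (w : Fin 3 → ℝ) : Prop := ∀ j, 0 < w j ∧ w j ≤ 1

/-- the kernel `exp (κ² s² / 2) x ^ s` -/
def ker (κ x : ℝ) (s : ℂ) : ℂ := cexp ((κ : ℂ) ^ 2 * s ^ 2 / 2 + s * (Real.log x : ℝ))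

/-- the smooth counting function -/
def cnt (w : Fin 3 → ℝ) (κ x : ℝ) : ℝ :=
  ∑' m : Fin 3 → ℕ, Real.exp (-(Real.log (x / lam w m)) ^ 2 / (2 * κ ^ 2))

/-- the polar part -/
def pol (c : Fin 3 → ℂ) (s : ℂ) : ℂ := ∑ k : Fin 3, c k / (s - ((k : ℕ) + 1 : ℂ))

/-- SUM: `∑ λ ^ (-σ)` converges for `σ > 3` -/
def S_SUM : Prop := ∀ w : Fin 3 → ℝ, (∀ j, 0 < w j) → ∀ σ : ℝ, 3 < σ →
  Summable fun m : Fin 3 → ℕ => (lam w m) ^ (-σ)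

/-- GEN: the generating function `∑ exp (- λ u)` -/
def S_GEN : Prop := ∀ w : Fin 3 → ℝ, (∀ j, 0 < w j) → ∀ u : ℝ, 0 < u →
  HasSum (fun m : Fin 3 → ℕ => Real.exp (-(lam w m) * u))
    (Real.exp (-u) * ∏ j, (1 - Real.exp (-(w j * u)))⁻¹)

/-- BET: the expansion of the generating function at `0` -/
def S_BET : Prop := ∀ w : Fin 3 → ℝ, Wt w → ∃ β : ℕ → ℝ, (Summable fun k => |β k|) ∧
  ∀ u : ℝ, 0 < u → u ≤ 1 →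
    HasSum (fun k => β k * u ^ k) (u ^ 3 * (Real.exp (-u) * ∏ j, (1 - Real.exp (-(w j * u)))⁻¹))

/-- RG: growth of `1 / Γ` in the strip -/
def S_RG : Prop := ∃ C : ℝ, ∀ s : ℂ, 3 / 2 ≤ s.re → s.re ≤ 4 →
  ‖(Complex.Gamma s)⁻¹‖ ≤ C * Real.exp (4 * |s.im|)

/-- CONT: the continuation: entire part `E`, polar part, growth in the strip -/
def S_CONT : Prop := S_SUM → S_GEN → S_BET → S_RG → ∀ w : Fin 3 → ℝ, Wt w →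
  ∃ (E : ℂ → ℂ) (c : Fin 3 → ℂ), Differentiable ℂ E ∧
    (∀ s : ℂ, 3 < s.re → E s + pol c s = Z w s) ∧
    ∃ C : ℝ, ∀ s : ℂ, 3 / 2 ≤ s.re → s.re ≤ 4 → ‖E s‖ ≤ C * Real.exp (4 * |s.im|)

/-- GAU: the counting function as an integral over the line `Re s = 4` -/
def S_GAU : Prop := S_SUM → ∀ w : Fin 3 → ℝ, (∀ j, 0 < w j) → ∀ κ x : ℝ, 0 < κ → 0 < x →
  (Summable fun m : Fin 3 → ℕ => Real.exp (-(Real.log (x / lam w m)) ^ 2 / (2 * κ ^ 2))) ∧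
  (MeasureTheory.Integrable fun t : ℝ => Z w (4 + t * I) * ker κ x (4 + t * I)) ∧
  ((cnt w κ x : ℝ) : ℂ) = ((κ / Real.sqrt (2 * Real.pi) : ℝ) : ℂ) *
    ∫ t : ℝ, Z w (4 + t * I) * ker κ x (4 + t * I)

/-- SHI: the shift of the contour -/
def S_SHI : Prop := ∀ E : ℂ → ℂ, Differentiable ℂ E →
  (∃ C : ℝ, ∀ s : ℂ, 3 / 2 ≤ s.re → s.re ≤ 4 → ‖E s‖ ≤ C * Real.exp (4 * |s.im|)) →
  ∀ κ x : ℝ, 0 < κ → 0 < x →
  (MeasureTheory.Integrable fun t : ℝ => E (4 + t * I) * ker κ x (4 + t * I)) ∧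
  (MeasureTheory.Integrable fun t : ℝ => E (3 / 2 + t * I) * ker κ x (3 / 2 + t * I)) ∧
  ∫ t : ℝ, E (4 + t * I) * ker κ x (4 + t * I) =
    ∫ t : ℝ, E (3 / 2 + t * I) * ker κ x (3 / 2 + t * I)

/-- POL: the polar part on the line `Re s = 4` -/
def S_POL : Prop := ∀ c : Fin 3 → ℂ, ∃ C : ℝ, ∀ κ x : ℝ, 0 < κ → κ ≤ 1 → 0 < x →
  ‖((κ / Real.sqrt (2 * Real.pi) : ℝ) : ℂ) * ∫ t : ℝ, pol c (4 + t * I) * ker κ x (4 + t * I)‖ ≤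
    C * (x ^ 4 * Real.sqrt κ)

/-- UP: the upper bound for the counting function -/
def S_UP : Prop := S_SUM → S_GAU → S_SHI → S_POL → ∀ (w : Fin 3 → ℝ) (E : ℂ → ℂ) (c : Fin 3 → ℂ),
  (∀ j, 0 < w j) → Differentiable ℂ E → (∀ s : ℂ, 3 < s.re → E s + pol c s = Z w s) →
  (∃ C : ℝ, ∀ s : ℂ, 3 / 2 ≤ s.re → s.re ≤ 4 → ‖E s‖ ≤ C * Real.exp (4 * |s.im|)) →
  ∃ C : ℝ, ∀ κ x : ℝ, 0 < κ → κ ≤ 1 → 0 < x →
    (MeasureTheory.Integrable fun t : ℝ => ‖E (3 / 2 + t * I)‖ * Real.exp (-(κ ^ 2 * t ^ 2 / 2))) ∧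
    cnt w κ x ≤ C * (x ^ 4 * Real.sqrt κ +
      x ^ (3 / 2 : ℝ) * (κ * ∫ t : ℝ, ‖E (3 / 2 + t * I)‖ * Real.exp (-(κ ^ 2 * t ^ 2 / 2))))

/-- CLU: many of the numbers `1 + m · w` are very close to `x = q ^ 20`; `κ = x ^ (-6)` -/
def S_CLU : Prop := S_SUM → S_GAU → ∀ θ : ℝ, Liouville θ → 0 < θ → θ < 1 →
  ∀ q₀ : ℕ, ∃ q : ℕ, q₀ ≤ q ∧ 2 ≤ q ∧
    Real.exp (-1) * (q : ℝ) ^ 35 ≤ cnt ![1, θ, θ ^ 2] ((q : ℝ) ^ 120)⁻¹ ((q : ℝ) ^ 20)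

/-- DIM: the weights are independent over `ℚ`, and Liouville numbers exist in `(0, 1)` -/
def S_DIM : Prop := (∃ θ : ℝ, Liouville θ ∧ 0 < θ ∧ θ < 1) ∧
  ∀ θ : ℝ, Liouville θ →
    Module.finrank ℚ (Submodule.span ℚ (Set.range (![1, θ, θ ^ 2] : Fin 3 → ℝ))) = 3

/-- LB: the resulting lower bound on the line `Re s = 3 / 2` -/
def S_LB : Prop := S_SUM → S_GAU → S_SHI → S_POL → S_UP → S_CLU →
  ∀ θ : ℝ, Liouville θ → 0 < θ → θ < 1 → ∀ (E : ℂ → ℂ) (c : Fin 3 → ℂ),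
  Differentiable ℂ E → (∀ s : ℂ, 3 < s.re → E s + pol c s = Z ![1, θ, θ ^ 2] s) →
  (∃ C : ℝ, ∀ s : ℂ, 3 / 2 ≤ s.re → s.re ≤ 4 → ‖E s‖ ≤ C * Real.exp (4 * |s.im|)) →
  ∀ M : ℝ, ∃ κ : ℝ, 0 < κ ∧ κ ≤ 1 ∧
    M * κ ^ (-(1 / 25) : ℝ) <
      κ * ∫ t : ℝ, ‖E (3 / 2 + t * I)‖ * Real.exp (-(κ ^ 2 * t ^ 2 / 2))

end

end Pool.Agent.H337_barnes
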