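import Mathlib
import Pool.Agent.H337_barnes.Stmts

/-!
# The expansion of the generating function at `0`, and the growth of `1 / Γ`
-/

set_option autoImplicit false

namespace Pool.Agent.H337_barnes

open Complex Metric Set

noncomputable section

/-- `(1 - exp (-z)) / z` -/
def betD (z : ℂ) : ℂ := dslope (fun z => 1 - cexp (-z)) 0 z

theorem betD_diff : Differentiable ℂ betD := by
  have h : Differentiable ℂ (fun z : ℂ => 1 - cexp (-z)) := by fun_prop
  have h2 := (Complex.differentiableOn_dslope (s := univ) (c := (0 : ℂ))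
    (f := fun z : ℂ => 1 - cexp (-z)) Filter.univ_mem).2 h.differentiableOn
  rwa [differentiableOn_univ] at h2

theorem betD_zero : betD 0 = 1 := by
  unfold betD
  rw [dslope_same]
  have h : HasDerivAt (fun z : ℂ => 1 - cexp (-z)) (-(cexp (-0) * -1)) 0 :=
    ((Complex.hasDerivAt_exp (-0)).comp (0 : ℂ) (hasDerivAt_neg 0)).const_sub 1
  rw [h.deriv]
  simp

theorem betD_of_ne {z : ℂ} (hz : z ≠ 0) : betD z = (1 - cexp (-z)) / z := by
  unfold betD
  rw [dslope_of_ne _ hz, slope_def_field]
  simp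

theorem betD_ne {z : ℂ} (hz : ‖z‖ < 6) : betD z ≠ 0 := by
  by_cases h0 : z = 0
  · rw [h0, betD_zero]
    exact one_ne_zero
  · rw [betD_of_ne h0]
    apply div_ne_zero _ h0
    intro h1
    have h2 : cexp (-z) = 1 := (sub_eq_zero.1 h1).symm
    rw [Complex.exp_eq_one_iff] at h2
    obtain ⟨n, hn⟩ := h2
    have h3 : ‖z‖ = |(n : ℝ)| * (2 * Real.pi) := by
      rw [← norm_neg, hn, norm_mul, norm_mul, Complex.norm_I, mul_one, Complex.norm_intCast,
        norm_mul, Complex.norm_real, Real.norm_of_nonneg Real.pi_pos.le]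
      simp
    have hn0 : n ≠ 0 := by
      rintro rfl
      simp at hn
      exact h0 hn
    have h4 : (1 : ℝ) ≤ |(n : ℝ)| := by exact_mod_cast Int.one_le_abs hn0
    have h5 := Real.pi_gt_three
    nlinarith

/-- the function whose expansion we take -/
def betP (w : Fin 3 → ℝ) (z : ℂ) : ℂ := cexp (-z) * ∏ j, ((w j : ℂ) * betD ((w j : ℂ) * z))⁻¹

theorem betP_diff {w : Fin 3 → ℝ} (hw : Wt w) :
    DifferentiableOn ℂ (betP w) (closedBall 0 ((2 : NNReal) : ℝ)) := by
  unfold betP
  apply DifferentiableOn.mul (by fun_prop)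
  apply DifferentiableOn.fun_finsetProd
  intro j _
  apply DifferentiableOn.inv
  · apply DifferentiableOn.mul (by fun_prop)
    exact (betD_diff.comp (by fun_prop : Differentiable ℂ fun z : ℂ => (w j : ℂ) * z)).differentiableOn
  · intro z hz
    apply mul_ne_zero
    · exact_mod_cast (hw j).1.ne'
    · apply betD_ne
      rw [mem_closedBall, dist_zero_right] at hz
      rw [norm_mul, Complex.norm_real, Real.norm_of_nonneg (hw j).1.le]
      have h1 : ‖z‖ ≤ 2 := by simpa using hz
      have h2 := (hw j).2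
      have h3 := (hw j).1
      nlinarith [norm_nonneg z]

theorem betP_real {w : Fin 3 → ℝ} (hw : Wt w) {u : ℝ} (hu : 0 < u) :
    betP w u = ((u ^ 3 * (Real.exp (-u) * ∏ j, (1 - Real.exp (-(w j * u)))⁻¹) : ℝ) : ℂ) := by
  unfold betP
  have h1 : ∀ j, ((w j : ℂ) * betD ((w j : ℂ) * u))⁻¹ =
      ((u * (1 - Real.exp (-(w j * u)))⁻¹ : ℝ) : ℂ) := by
    intro j
    have hw0 : (w j : ℂ) ≠ 0 := by exact_mod_cast (hw j).1.ne'
    have hu0 : (u : ℂ) ≠ 0 := by exact_mod_cast hu.ne'
    rw [betD_of_ne (mul_ne_zero hw0 hu0)]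
    push_cast
    rw [← mul_div_assoc, mul_div_mul_left _ _ hw0, inv_div, div_eq_mul_inv]
  rw [Finset.prod_congr rfl fun j _ => h1 j]
  push_cast
  rw [Finset.prod_mul_distrib, Finset.prod_const, Finset.card_univ, Fintype.card_fin]
  ring

theorem t_BET : S_BET := by
  intro w hw
  have h1 := (betP_diff hw).hasFPowerSeriesOnBall (by norm_num : (0 : NNReal) < 2)
  set p := cauchyPowerSeries (betP w) 0 ((2 : NNReal) : ℝ) with hp
  have hsum : Summable fun n => ‖p n‖ := by
    have h2 : ((1 : NNReal) : ENNReal) < p.radius := by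
      refine lt_of_lt_of_le ?_ h1.r_le
      norm_num
    have := p.summable_norm_mul_pow h2
    simpa using this
  refine ⟨fun k => (p.coeff k).re, ?_, ?_⟩
  · refine Summable.of_nonneg_of_le (fun k => abs_nonneg _) (fun k => ?_) hsum
    refine (Complex.abs_re_le_norm _).trans ?_
    rw [FormalMultilinearSeries.norm_apply_eq_norm_coef]
  · intro u hu0 hu1
    have h2 : (u : ℂ) ∈ Metric.eball (0 : ℂ) ((2 : NNReal) : ENNReal) := by
      rw [Metric.mem_eball, edist_zero_right, enorm_eq_nnnorm]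
      norm_cast
      rw [← NNReal.coe_lt_coe, coe_nnnorm, Real.norm_of_nonneg hu0.le]
      norm_num
      linarith
    have h3 := h1.hasSum h2
    rw [zero_add, betP_real hw hu0] at h3
    have h4 := Complex.hasSum_re h3
    rw [Complex.ofReal_re] at h4
    have h5 : (fun k => (p.coeff k).re * u ^ k) = fun k => (p k fun _ => (u : ℂ)).re := by
      funext k
      rw [FormalMultilinearSeries.apply_eq_pow_smul_coeff, smul_eq_mul, ← Complex.ofReal_pow,
        Complex.re_ofReal_mul, mul_comm]
    rw [h5]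
    exact h4

theorem rg_norm_le {s : ℂ} (hs : 0 < s.re) : ‖Complex.Gamma s‖ ≤ Real.Gamma s.re := by
  rw [Complex.Gamma_eq_integral hs, Complex.GammaIntegral, Real.Gamma_eq_integral hs]
  refine (MeasureTheory.norm_integral_le_integral_norm _).trans (le_of_eq ?_)
  apply MeasureTheory.setIntegral_congr_fun measurableSet_Ioi
  intro x hx
  simp only
  rw [norm_mul, Complex.norm_real, Real.norm_of_nonneg (Real.exp_pos _).le,
    Complex.norm_cpow_eq_rpow_re_of_pos hx]
  simp

theorem rg_sin (z : ℂ) : ‖Complex.sin z‖ ≤ Real.exp |z.im| := by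
  rw [Complex.sin]
  have h1 : ‖cexp (-z * I)‖ ≤ Real.exp |z.im| := by
    rw [Complex.norm_exp]
    apply Real.exp_le_exp.2
    simp only [neg_mul, Complex.neg_re, Complex.mul_re, Complex.I_re, mul_zero, Complex.I_im,
      mul_one, zero_sub, neg_neg]
    exact le_abs_self _
  have h2 : ‖cexp (z * I)‖ ≤ Real.exp |z.im| := by
    rw [Complex.norm_exp]
    apply Real.exp_le_exp.2
    simp only [Complex.mul_re, Complex.I_re, mul_zero, Complex.I_im, mul_one, zero_sub]
    exact neg_le_abs _
  calc ‖(cexp (-z * I) - cexp (z * I)) * I / 2‖ = ‖cexp (-z * I) - cexp (z * I)‖ / 2 := by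
        rw [norm_div, norm_mul, Complex.norm_I, mul_one]
        norm_num
    _ ≤ (Real.exp |z.im| + Real.exp |z.im|) / 2 := by
        gcongr
        exact (norm_sub_le _ _).trans (add_le_add h1 h2)
    _ = Real.exp |z.im| := by ring

theorem t_RG : S_RG := by
  -- the real Gamma function is bounded on `[1, 7 / 2]`
  obtain ⟨G, hG⟩ : ∃ G : ℝ, ∀ x ∈ Icc (1 : ℝ) (7 / 2), Real.Gamma x ≤ G := by
    have hc : ContinuousOn Real.Gamma (Icc (1 : ℝ) (7 / 2)) := by
      intro x hx
      apply (Real.differentiableAt_Gamma (fun m => ?_)).continuousAt.continuousWithinAt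
      have : (0 : ℝ) ≤ m := by positivity
      linarith [hx.1]
    obtain ⟨G, hG⟩ := isCompact_Icc.bddAbove_image hc
    exact ⟨G, fun x hx => hG ⟨x, hx, rfl⟩⟩
  have hG0 : 0 ≤ G := (Real.Gamma_pos_of_pos one_pos).le.trans (hG 1 ⟨le_rfl, by norm_num⟩)
  -- compactness for small imaginary part
  obtain ⟨B, hB⟩ : ∃ B : ℝ, ∀ s ∈ (Icc (3 / 2 : ℝ) 4) ×ℂ (Icc (-1 : ℝ) 1),
      ‖(Complex.Gamma s)⁻¹‖ ≤ B := by
    have hK : IsCompact ((Icc (3 / 2 : ℝ) 4) ×ℂ (Icc (-1 : ℝ) 1)) :=
      isCompact_Icc.reProdIm isCompact_Icc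
    have hc : ContinuousOn (fun s => ‖(Complex.Gamma s)⁻¹‖)
        ((Icc (3 / 2 : ℝ) 4) ×ℂ (Icc (-1 : ℝ) 1)) :=
      Complex.differentiable_one_div_Gamma.continuous.norm.continuousOn
    obtain ⟨B, hB⟩ := hK.bddAbove_image hc
    exact ⟨B, fun s hs => hB ⟨s, hs, rfl⟩⟩
  have hB0 : 0 ≤ B := (norm_nonneg _).trans (hB 2 (by
    rw [Complex.mem_reProdIm]
    norm_num))
  refine ⟨G + B, fun s hs1 hs2 => ?_⟩
  rcases le_total |s.im| 1 with ht | ht
  · have h1 := hB s (by
      rw [Complex.mem_reProdIm]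
      exact ⟨⟨hs1, hs2⟩, abs_le.1 ht⟩)
    have h2 : 1 ≤ Real.exp (4 * |s.im|) := Real.one_le_exp (by positivity)
    nlinarith
  · have him : s.im ≠ 0 := by
      intro h0
      rw [h0, abs_zero] at ht
      linarith
    have hk : ∀ k : ℝ, 1 ≤ ‖((k : ℂ) - s)‖ := by
      intro k
      refine ht.trans ?_
      have := Complex.abs_im_le_norm ((k : ℂ) - s)
      simpa using this
    have hne : ∀ k : ℝ, ((k : ℂ) - s) ≠ 0 := by
      intro k h0
      have := hk k
      rw [h0, norm_zero] at this
      linarith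
    have hrec : Complex.Gamma (5 - s) = (4 - s) * ((3 - s) * ((2 - s) * ((1 - s) *
        Complex.Gamma (1 - s)))) := by
      have e1 := Complex.Gamma_add_one (1 - s) (by simpa using hne 1)
      have e2 := Complex.Gamma_add_one (2 - s) (by simpa using hne 2)
      have e3 := Complex.Gamma_add_one (3 - s) (by simpa using hne 3)
      have e4 := Complex.Gamma_add_one (4 - s) (by simpa using hne 4)
      have f1 : (1 - s) + 1 = 2 - s := by ring
      have f2 : (2 - s) + 1 = 3 - s := by ring
      have f3 : (3 - s) + 1 = 4 - s := by ring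
      have f4 : (4 - s) + 1 = 5 - s := by ring
      rw [f1] at e1
      rw [f2] at e2
      rw [f3] at e3
      rw [f4] at e4
      rw [e4, e3, e2, e1]
    have h5 : ‖Complex.Gamma (1 - s)‖ ≤ G := by
      have h6 : ‖Complex.Gamma (5 - s)‖ ≤ G := by
        refine (rg_norm_le (by simp; linarith)).trans ?_
        apply hG
        simp only [Complex.sub_re]
        constructor
        · norm_num; linarith
        · norm_num; linarith
      rw [hrec, norm_mul, norm_mul, norm_mul, norm_mul] at h6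
      have g1 : 1 ≤ ‖(1 - s : ℂ)‖ := by simpa using hk 1
      have g2 : 1 ≤ ‖(2 - s : ℂ)‖ := by simpa using hk 2
      have g3 : 1 ≤ ‖(3 - s : ℂ)‖ := by simpa using hk 3
      have g4 : 1 ≤ ‖(4 - s : ℂ)‖ := by simpa using hk 4
      refine le_trans ?_ h6
      have n0 := norm_nonneg (Complex.Gamma (1 - s))
      have m1 : ‖Complex.Gamma (1 - s)‖ ≤ ‖(1 - s : ℂ)‖ * ‖Complex.Gamma (1 - s)‖ :=
        le_mul_of_one_le_left n0 g1
      have m2 := le_mul_of_one_le_left (n0.trans m1) g2
      have m3 := le_mul_of_one_le_left ((n0.trans m1).trans m2) g3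
      have m4 := le_mul_of_one_le_left (((n0.trans m1).trans m2).trans m3) g4
      exact m1.trans (m2.trans (m3.trans m4))
    have hrefl := Complex.Gamma_mul_Gamma_one_sub s
    have hsin : Complex.sin (Real.pi * s) ≠ 0 := by
      intro h0
      rw [Complex.sin_eq_zero_iff] at h0
      obtain ⟨k, hk'⟩ := h0
      have hpi : (Real.pi : ℂ) ≠ 0 := by exact_mod_cast Real.pi_pos.ne'
      have h7 : s = k := by
        rw [mul_comm] at hk'
        exact mul_right_cancel₀ hpi hk'
      apply him
      rw [h7]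
      simp
    have hpi : (Real.pi : ℂ) ≠ 0 := by exact_mod_cast Real.pi_pos.ne'
    have hprod : Complex.Gamma s * Complex.Gamma (1 - s) ≠ 0 := by
      rw [hrefl]
      exact div_ne_zero hpi hsin
    have hinv : (Complex.Gamma s)⁻¹ = Complex.Gamma (1 - s) * Complex.sin (Real.pi * s) / Real.pi := by
      have hGs : Complex.Gamma s ≠ 0 := left_ne_zero_of_mul hprod
      rw [eq_div_iff hpi, inv_mul_eq_iff_eq_mul₀ hGs, ← mul_assoc, hrefl, div_mul_cancel₀ _ hsin]
    have h8 : ‖Complex.sin (Real.pi * s)‖ ≤ Real.exp (Real.pi * |s.im|) := by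
      refine (rg_sin _).trans (le_of_eq ?_)
      congr 1
      simp [abs_mul, abs_of_pos Real.pi_pos]
    have h9 : Real.exp (Real.pi * |s.im|) ≤ Real.exp (4 * |s.im|) := by
      apply Real.exp_le_exp.2
      exact mul_le_mul_of_nonneg_right Real.pi_le_four (abs_nonneg _)
    rw [hinv, norm_div, norm_mul, Complex.norm_real, Real.norm_of_nonneg Real.pi_pos.le]
    have h10 := Real.pi_gt_three
    calc ‖Complex.Gamma (1 - s)‖ * ‖Complex.sin (Real.pi * s)‖ / Real.pi
        ≤ G * Real.exp (4 * |s.im|) / 1 := by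
          gcongr
          · exact h8.trans h9
          · linarith
      _ ≤ (G + B) * Real.exp (4 * |s.im|) := by
          rw [div_one]
          have := Real.exp_pos (4 * |s.im|)
          nlinarith

end

end Pool.Agent.H337_barnes
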