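import Pool.Agent.H337_barnes.Stmts

/-! CLU: many of the numbers `1 + m · w` are very close to `q ^ 20` -/

set_option autoImplicit false

namespace Pool.Agent.H337_barnes

open Filter

theorem clu_abs_log {δ : ℝ} (h : |δ| ≤ 1 / 2) : |Real.log (1 + δ)| ≤ 2 * |δ| := by
  have h1 := abs_le.1 h
  have hpos : 0 < 1 + δ := by linarith [h1.1]
  rw [abs_le]
  constructor
  · have h2 := Real.one_sub_inv_le_log_of_pos hpos
    have h3 : -(2 * |δ|) ≤ 1 - (1 + δ)⁻¹ := by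
      have h4 : 1 - (1 + δ)⁻¹ = δ / (1 + δ) := by field_simp; ring
      rw [h4, le_div_iff₀ hpos]
      rcases le_or_gt 0 δ with h5 | h5
      · rw [abs_of_nonneg h5]; nlinarith
      · rw [abs_of_neg h5]
        nlinarith
    linarith
  · have h2 := Real.log_le_sub_one_of_pos hpos
    have h3 : 1 + δ - 1 ≤ 2 * |δ| := by
      have := le_abs_self δ
      have := abs_nonneg δ
      linarith
    linarith

/-- the index of the cluster -/
def cluIdx (q p : ℕ) (k : ℕ × ℕ) : Fin 3 → ℕ :=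
  ![q ^ 20 - 1 - p * k.1 - p ^ 2 * k.2, q * k.1, q ^ 2 * k.2]

theorem clu_inj {q : ℕ} (hq : 0 < q) (p : ℕ) : Function.Injective (cluIdx q p) := by
  rintro ⟨a, b⟩ ⟨c, d⟩ h
  have h1 := congrFun h 1
  have h2 := congrFun h 2
  simp only [cluIdx, Matrix.cons_val_one, Matrix.cons_val_two, Matrix.tail_cons,
    Matrix.head_cons, Matrix.cons_val_zero] at h1 h2
  have h3 := Nat.eq_of_mul_eq_mul_left hq h1
  have h4 := Nat.eq_of_mul_eq_mul_left (pow_pos hq 2) h2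
  rw [h3, h4]

theorem clu_lam {θ : ℝ} {q p : ℕ} (hq : 2 ≤ q) (hpq : p ≤ q) {k : ℕ × ℕ} (hk1 : k.1 < q ^ 18)
    (hk2 : k.2 < q ^ 17) : lam ![1, θ, θ ^ 2] (cluIdx q p k) =
      (q : ℝ) ^ 20 + (k.1 : ℝ) * (q * θ - p) + (k.2 : ℝ) * (q ^ 2 * θ ^ 2 - p ^ 2) := by
  have h1 : p * k.1 + p ^ 2 * k.2 + 1 ≤ q ^ 20 := by
    have h2 : p * k.1 + q ≤ q ^ 19 := by
      calc p * k.1 + q ≤ q * k.1 + q := by nlinarith
        _ = q * (k.1 + 1) := by ring
        _ ≤ q * q ^ 18 := Nat.mul_le_mul_left q hk1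
        _ = q ^ 19 := by ring
    have h3 : p ^ 2 * k.2 ≤ q ^ 19 := by
      calc p ^ 2 * k.2 ≤ q ^ 2 * q ^ 17 :=
            Nat.mul_le_mul (Nat.pow_le_pow_left hpq 2) hk2.le
        _ = q ^ 19 := by ring
    have h4 : q ^ 19 + q ^ 19 ≤ q ^ 20 := by
      calc q ^ 19 + q ^ 19 = 2 * q ^ 19 := by ring
        _ ≤ q * q ^ 19 := Nat.mul_le_mul_right _ hq
        _ = q ^ 20 := by ring
    omega
  have h5 : ((q ^ 20 - 1 - p * k.1 - p ^ 2 * k.2 : ℕ) : ℝ) =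
      (q : ℝ) ^ 20 - 1 - p * k.1 - p ^ 2 * k.2 := by
    have h6 : q ^ 20 - 1 - p * k.1 - p ^ 2 * k.2 + (1 + p * k.1 + p ^ 2 * k.2) = q ^ 20 := by omega
    have h7 := congrArg (fun n : ℕ => (n : ℝ)) h6
    simp only [Nat.cast_add, Nat.cast_mul, Nat.cast_pow, Nat.cast_one] at h7
    linarith
  unfold lam cluIdx
  rw [Fin.sum_univ_three]
  simp only [Matrix.cons_val_one, Matrix.cons_val_two, Matrix.tail_cons,
    Matrix.head_cons, Matrix.cons_val_zero]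
  rw [h5]
  push_cast
  ring

theorem t_CLU : S_CLU := by
  intro hS hG θ hL h0 h1 q₀
  obtain ⟨q, ⟨a, -, ha⟩, hq0⟩ := ((hL.frequently_exists_num 140).and_eventually
    (eventually_ge_atTop (max q₀ 100))).exists
  have hqq : q₀ ≤ q := (le_max_left _ _).trans hq0
  have hq100 : 100 ≤ q := (le_max_right _ _).trans hq0
  have hq : 2 ≤ q := by omega
  refine ⟨q, hqq, hq, ?_⟩
  have hqR : (100 : ℝ) ≤ q := by exact_mod_cast hq100
  have hqpos : (0 : ℝ) < q := by linarith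
  have hqne : (q : ℝ) ≠ 0 := hqpos.ne'
  -- `|q θ - a| < q ^ (-139)`
  have hdiff : |(q : ℝ) * θ - a| < 1 / (q : ℝ) ^ 139 := by
    have e1 : (q : ℝ) * θ - a = q * (θ - a / q) := by field_simp
    rw [e1, abs_mul, abs_of_pos hqpos]
    calc (q : ℝ) * |θ - a / q| < q * (1 / (q : ℝ) ^ 140) := mul_lt_mul_of_pos_left ha hqpos
      _ = 1 / (q : ℝ) ^ 139 := by
        field_simp
  have hsmall : 1 / (q : ℝ) ^ 139 < 1 := by
    rw [div_lt_one (by positivity)]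
    exact one_lt_pow₀ (by linarith) (by norm_num)
  have hab := abs_lt.1 (hdiff.trans hsmall)
  have ha0 : 0 ≤ a := by
    by_contra hneg
    have h2 : a ≤ -1 := by omega
    have h3 : (a : ℝ) ≤ -1 := by exact_mod_cast h2
    have h4 := mul_pos hqpos h0
    linarith [hab.2]
  have haq : a ≤ q := by
    by_contra hneg
    have h2 : (q : ℤ) + 1 ≤ a := by omega
    have h3 : (q : ℝ) + 1 ≤ a := by exact_mod_cast h2
    have h4 : (q : ℝ) * θ < q := by nlinarith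
    linarith [hab.1]
  obtain ⟨p, rfl⟩ := Int.eq_ofNat_of_zero_le ha0
  have hpq : p ≤ q := by exact_mod_cast haq
  rw [Int.cast_natCast] at hdiff
  have hpqR : (p : ℝ) ≤ q := by exact_mod_cast hpq
  have hw : ∀ j : Fin 3, 0 < (![1, θ, θ ^ 2] : Fin 3 → ℝ) j := by
    intro j
    fin_cases j
    · exact one_pos
    · exact h0
    · exact pow_pos h0 2
  have hκ : (0 : ℝ) < ((q : ℝ) ^ 120)⁻¹ := by positivity
  have hx : (0 : ℝ) < (q : ℝ) ^ 20 := by positivity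
  have hsum := (hG hS ![1, θ, θ ^ 2] hw ((q : ℝ) ^ 120)⁻¹ ((q : ℝ) ^ 20) hκ hx).1
  classical
  let S : Finset (Fin 3 → ℕ) :=
    (Finset.range (q ^ 18) ×ˢ Finset.range (q ^ 17)).image (cluIdx q p)
  have hcard : S.card = q ^ 35 := by
    rw [Finset.card_image_of_injective _ (clu_inj (by omega) p), Finset.card_product,
      Finset.card_range, Finset.card_range, ← pow_add]
  have hterm : ∀ m ∈ S, Real.exp (-1) ≤
      Real.exp (-(Real.log ((q : ℝ) ^ 20 / lam ![1, θ, θ ^ 2] m)) ^ 2 /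
        (2 * ((q : ℝ) ^ 120)⁻¹ ^ 2)) := by
    intro m hm
    rw [Finset.mem_image] at hm
    obtain ⟨k, hk, rfl⟩ := hm
    rw [Finset.mem_product, Finset.mem_range, Finset.mem_range] at hk
    rw [clu_lam hq hpq hk.1 hk.2]
    -- the relative error
    set D : ℝ := (k.1 : ℝ) * (q * θ - p) + (k.2 : ℝ) * (q ^ 2 * θ ^ 2 - p ^ 2) with hD
    have hk1 : (k.1 : ℝ) ≤ (q : ℝ) ^ 18 := by exact_mod_cast hk.1.le
    have hk2 : (k.2 : ℝ) ≤ (q : ℝ) ^ 17 := by exact_mod_cast hk.2.le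
    have hDle : |D| ≤ 3 * (q : ℝ) ^ 18 * (1 / (q : ℝ) ^ 139) := by
      have h2 : |(k.1 : ℝ) * (q * θ - p)| ≤ (q : ℝ) ^ 18 * (1 / (q : ℝ) ^ 139) := by
        rw [abs_mul, Nat.abs_cast]
        exact mul_le_mul hk1 hdiff.le (abs_nonneg _) (by positivity)
      have h3 : |(k.2 : ℝ) * (q ^ 2 * θ ^ 2 - p ^ 2)| ≤
          (q : ℝ) ^ 17 * ((1 / (q : ℝ) ^ 139) * (2 * q)) := by
        have e1 : (q : ℝ) ^ 2 * θ ^ 2 - (p : ℝ) ^ 2 = (q * θ - p) * (q * θ + p) := by ring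
        rw [e1, abs_mul, Nat.abs_cast, abs_mul]
        refine mul_le_mul hk2 (mul_le_mul hdiff.le ?_ (abs_nonneg _) (by positivity))
          (mul_nonneg (abs_nonneg _) (abs_nonneg _)) (by positivity)
        rw [abs_of_nonneg (by positivity)]
        have h4 : (q : ℝ) * θ ≤ q := by nlinarith
        linarith
      calc |D| ≤ |(k.1 : ℝ) * (q * θ - p)| + |(k.2 : ℝ) * (q ^ 2 * θ ^ 2 - p ^ 2)| :=
            abs_add_le _ _
        _ ≤ (q : ℝ) ^ 18 * (1 / (q : ℝ) ^ 139) +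
            (q : ℝ) ^ 17 * ((1 / (q : ℝ) ^ 139) * (2 * q)) := add_le_add h2 h3
        _ = 3 * (q : ℝ) ^ 18 * (1 / (q : ℝ) ^ 139) := by ring
    have hδ : |D / (q : ℝ) ^ 20| ≤ 3 / (q : ℝ) ^ 141 := by
      rw [abs_div, abs_of_pos hx, div_le_iff₀ hx]
      refine hDle.trans (le_of_eq ?_)
      field_simp
    have h141 : 3 / (q : ℝ) ^ 141 ≤ 1 / 2 := by
      rw [div_le_div_iff₀ (by positivity) (by norm_num)]
      have : (q : ℝ) ≤ (q : ℝ) ^ 141 := le_self_pow₀ (by linarith) (by norm_num)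
      linarith
    have hlog := clu_abs_log (hδ.trans h141)
    have e2 : Real.log ((q : ℝ) ^ 20 / ((q : ℝ) ^ 20 + (k.1 : ℝ) * (q * θ - p) +
        (k.2 : ℝ) * (q ^ 2 * θ ^ 2 - p ^ 2))) = -Real.log (1 + D / (q : ℝ) ^ 20) := by
      rw [← Real.log_inv]
      congr 1
      have e3 : (q : ℝ) ^ 20 + (k.1 : ℝ) * (q * θ - p) + (k.2 : ℝ) * (q ^ 2 * θ ^ 2 - p ^ 2) =
          (q : ℝ) ^ 20 * (1 + D / (q : ℝ) ^ 20) := by
        rw [hD]
        field_simp
        ring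
      rw [e3, div_mul_eq_div_div, div_self hx.ne', one_div]
    rw [e2, neg_sq]
    refine Real.exp_le_exp.2 ?_
    rw [neg_div, neg_le_neg_iff, div_le_one (by positivity)]
    have h5 : (Real.log (1 + D / (q : ℝ) ^ 20)) ^ 2 ≤ (2 * (3 / (q : ℝ) ^ 141)) ^ 2 := by
      rw [← sq_abs]
      refine pow_le_pow_left₀ (abs_nonneg _) ?_ 2
      exact hlog.trans (mul_le_mul_of_nonneg_left hδ (by norm_num))
    refine h5.trans ?_
    have e4 : (2 * (3 / (q : ℝ) ^ 141)) ^ 2 = 36 / (q : ℝ) ^ 282 := by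
      rw [mul_pow, div_pow, ← pow_mul]
      norm_num
      ring
    have e5 : 2 * ((q : ℝ) ^ 120)⁻¹ ^ 2 = 2 / (q : ℝ) ^ 240 := by
      rw [inv_pow, ← pow_mul]
      ring
    rw [e4, e5, div_le_div_iff₀ (by positivity) (by positivity)]
    have e6 : (q : ℝ) ^ 282 = (q : ℝ) ^ 240 * (q : ℝ) ^ 42 := by rw [← pow_add]
    rw [e6]
    have h6 : (q : ℝ) ≤ (q : ℝ) ^ 42 := le_self_pow₀ (by linarith) (by norm_num)
    have h7 : (0 : ℝ) < (q : ℝ) ^ 240 := by positivity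
    nlinarith
  have hfin := hsum.sum_le_tsum S (fun m _ => (Real.exp_pos _).le)
  have hlow : (q : ℝ) ^ 35 * Real.exp (-1) ≤ ∑ m ∈ S,
      Real.exp (-(Real.log ((q : ℝ) ^ 20 / lam ![1, θ, θ ^ 2] m)) ^ 2 /
        (2 * ((q : ℝ) ^ 120)⁻¹ ^ 2)) := by
    have h2 := Finset.card_nsmul_le_sum S _ _ hterm
    rw [hcard, nsmul_eq_mul, Nat.cast_pow] at h2
    exact h2
  unfold cnt
  rw [mul_comm]
  exact hlow.trans hfin

end Pool.Agent.H337_barnes
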