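import Mathlib
import Pool.Agent.H337_barnes.Stmts

/-!
# CONT: the analytic continuation of the Barnes zeta function
-/

set_option autoImplicit false

namespace Pool.Agent.H337_barnes

open Complex MeasureTheory Set Filter Asymptotics Topology

noncomputable section

namespace Cont

/-- the generating function -/
def gen (w : Fin 3 → ℝ) (u : ℝ) : ℝ := Real.exp (-u) * ∏ j, (1 - Real.exp (-(w j * u)))⁻¹

/-- the generating function with complex values -/
def genC (w : Fin 3 → ℝ) (u : ℝ) : ℂ := ((gen w u : ℝ) : ℂ)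

theorem lam_pos {w : Fin 3 → ℝ} (hw : ∀ j, 0 < w j) (m : Fin 3 → ℕ) : 0 < lam w m := by
  unfold lam
  have : 0 ≤ ∑ j, (m j : ℝ) * w j :=
    Finset.sum_nonneg fun j _ => mul_nonneg (Nat.cast_nonneg _) (hw j).le
  linarith

theorem gen_cont {w : Fin 3 → ℝ} (hw : ∀ j, 0 < w j) : ContinuousOn (gen w) (Ioi 0) := by
  unfold gen
  refine ContinuousOn.mul (by fun_prop) ?_
  refine continuousOn_finsetProd _ fun j _ => ?_
  refine ContinuousOn.inv₀ (by fun_prop) ?_
  intro u hu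
  have h1 : Real.exp (-(w j * u)) < 1 := by
    rw [Real.exp_lt_one_iff]
    have := mul_pos (hw j) hu
    linarith
  linarith

theorem gen_nonneg {w : Fin 3 → ℝ} (hw : ∀ j, 0 < w j) {u : ℝ} (hu : 0 < u) : 0 ≤ gen w u := by
  unfold gen
  refine mul_nonneg (Real.exp_pos _).le (Finset.prod_nonneg fun j _ => ?_)
  have h1 : Real.exp (-(w j * u)) < 1 := by
    rw [Real.exp_lt_one_iff]
    have := mul_pos (hw j) hu
    linarith
  exact inv_nonneg.2 (by linarith)

theorem gen_le {w : Fin 3 → ℝ} (hw : ∀ j, 0 < w j) {u : ℝ} (hu : 1 ≤ u) :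
    gen w u ≤ Real.exp (-u) * ∏ j, (1 - Real.exp (-(w j)))⁻¹ := by
  unfold gen
  refine mul_le_mul_of_nonneg_left ?_ (Real.exp_pos _).le
  refine Finset.prod_le_prod (fun j _ => ?_) (fun j _ => ?_)
  · have h1 : Real.exp (-(w j * u)) < 1 := by
      rw [Real.exp_lt_one_iff]
      have := mul_pos (hw j) (by linarith : 0 < u)
      linarith
    exact inv_nonneg.2 (by linarith)
  · have h1 : Real.exp (-(w j)) < 1 := by
      rw [Real.exp_lt_one_iff]
      have := hw j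
      linarith
    refine inv_anti₀ (by linarith) ?_
    have h2 : Real.exp (-(w j * u)) ≤ Real.exp (-(w j)) := by
      rw [Real.exp_le_exp]
      nlinarith [hw j]
    linarith

theorem genC_loc {w : Fin 3 → ℝ} (hw : ∀ j, 0 < w j) :
    LocallyIntegrableOn (genC w) (Ioi 0) volume := by
  refine ContinuousOn.locallyIntegrableOn ?_ measurableSet_Ioi
  exact Complex.continuous_ofReal.comp_continuousOn (gen_cont hw)

theorem genC_top {w : Fin 3 → ℝ} (hw : ∀ j, 0 < w j) (a : ℝ) :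
    genC w =O[atTop] fun x : ℝ => x ^ (-a) := by
  have h1 := (isLittleO_exp_neg_mul_rpow_atTop (a := 1) one_pos (-a)).isBigO
  refine IsBigO.trans ?_ h1
  refine IsBigO.of_bound (∏ j, (1 - Real.exp (-(w j)))⁻¹) ?_
  filter_upwards [eventually_ge_atTop 1] with u hu
  have h2 := gen_le hw hu
  have h3 := gen_nonneg hw (by linarith : 0 < u)
  rw [genC, Complex.norm_real, Real.norm_of_nonneg h3, Real.norm_of_nonneg (Real.exp_pos _).le,
    mul_comm]
  simpa using h2

theorem gen_bound {w : Fin 3 → ℝ} {β : ℕ → ℝ} (hβ : Summable fun k => |β k|)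
    (h : ∀ u : ℝ, 0 < u → u ≤ 1 → HasSum (fun k => β k * u ^ k) (u ^ 3 * gen w u)) {u : ℝ}
    (hu : 0 < u) (hu1 : u ≤ 1) : |u ^ 3 * gen w u| ≤ ∑' k, |β k| := by
  have h1 := h u hu hu1
  have h2 : ∀ k, ‖β k * u ^ k‖ ≤ |β k| := by
    intro k
    rw [norm_mul, Real.norm_eq_abs, Real.norm_eq_abs, abs_of_nonneg (pow_nonneg hu.le k)]
    exact mul_le_of_le_one_right (abs_nonneg _) (pow_le_one₀ hu.le hu1)
  have h3 : Summable fun k => ‖β k * u ^ k‖ := Summable.of_nonneg_of_le (fun _ => norm_nonneg _) h2 hβ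
  rw [← h1.tsum_eq, ← Real.norm_eq_abs]
  exact (norm_tsum_le_tsum_norm h3).trans (h3.tsum_le_tsum h2 hβ)

theorem genC_zero {w : Fin 3 → ℝ} {β : ℕ → ℝ} (hβ : Summable fun k => |β k|)
    (h : ∀ u : ℝ, 0 < u → u ≤ 1 → HasSum (fun k => β k * u ^ k) (u ^ 3 * gen w u)) :
    genC w =O[𝓝[>] 0] fun x : ℝ => x ^ (-(3 : ℝ)) := by
  refine IsBigO.of_bound (∑' k, |β k|) ?_
  have h1 : ∀ᶠ u : ℝ in 𝓝[>] 0, u ∈ Ioc (0 : ℝ) 1 := Ioc_mem_nhdsGT one_pos
  filter_upwards [h1] with u hu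
  have h2 := gen_bound hβ h hu.1 hu.2
  have h3 : (0 : ℝ) < u ^ 3 := pow_pos hu.1 3
  rw [genC, Complex.norm_real, Real.norm_eq_abs, Real.norm_eq_abs, Real.rpow_neg hu.1.le,
    abs_of_nonneg (inv_nonneg.2 (Real.rpow_nonneg hu.1.le _)),
    show (3 : ℝ) = ((3 : ℕ) : ℝ) by norm_num, Real.rpow_natCast]
  rw [abs_mul, abs_of_pos h3] at h2
  rw [← div_eq_mul_inv, le_div_iff₀ h3]
  linarith

/-- the Mellin transform of the generating function -/
theorem mellin_gen (hS : S_SUM) (hG : S_GEN) {w : Fin 3 → ℝ} (hw : ∀ j, 0 < w j) {s : ℂ}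
    (hs : 3 < s.re) : mellin (genC w) s = Gamma s * Z w s := by
  have h1 := hasSum_mellin (ι := Fin 3 → ℕ) (a := fun _ => 1) (p := lam w) (F := genC w) (s := s)
    (fun m => Or.inr (lam_pos hw m)) (by linarith) ?_ ?_
  · have h2 := h1.tsum_eq
    rw [← h2, Z, ← tsum_mul_left]
    congr 1
    ext m
    rw [Complex.cpow_neg, mul_one, div_eq_mul_inv]
  · intro u hu
    have h2 := hG w hw u hu
    have h3 := (Complex.hasSum_ofReal (f := fun m => Real.exp (-(lam w m) * u))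
      (x := gen w u)).2 h2
    simpa [genC] using h3
  · have h2 := hS w hw s.re hs
    refine h2.congr ?_
    intro m
    rw [Real.rpow_neg (lam_pos hw m).le]
    simp

/-- the part of the generating function on `(1, ∞)` -/
def F1 (w : Fin 3 → ℝ) : ℝ → ℂ := (Ioi (1 : ℝ)).indicator (genC w)

theorem F1_loc {w : Fin 3 → ℝ} (hw : ∀ j, 0 < w j) : LocallyIntegrableOn (F1 w) (Ioi 0) volume := by
  intro x hx
  obtain ⟨t, ht, hi⟩ := genC_loc hw x hx
  exact ⟨t, ht, hi.indicator measurableSet_Ioi⟩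

theorem F1_top {w : Fin 3 → ℝ} (hw : ∀ j, 0 < w j) (a : ℝ) :
    F1 w =O[atTop] fun x : ℝ => x ^ (-a) := by
  refine EventuallyEq.trans_isBigO ?_ (genC_top hw a)
  filter_upwards [eventually_gt_atTop 1] with u hu
  exact Set.indicator_of_mem hu _

theorem F1_zero (w : Fin 3 → ℝ) (b : ℝ) : F1 w =O[𝓝[>] 0] fun x : ℝ => x ^ (-b) := by
  refine EventuallyEq.trans_isBigO (f₂ := fun _ => (0 : ℂ)) ?_ (isBigO_zero _ _)
  have h1 : ∀ᶠ u : ℝ in 𝓝[>] 0, u ∈ Ioc (0 : ℝ) 1 := Ioc_mem_nhdsGT one_pos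
  filter_upwards [h1] with u hu
  exact Set.indicator_of_notMem (by simpa using hu.2) _

/-- the entire function given by the part on `(1, ∞)` -/
def E1 (w : Fin 3 → ℝ) : ℂ → ℂ := mellin (F1 w)

theorem E1_diff {w : Fin 3 → ℝ} (hw : ∀ j, 0 < w j) : Differentiable ℂ (E1 w) := by
  intro s
  exact mellin_differentiableAt_of_isBigO_rpow (F1_loc hw) (F1_top hw (s.re + 1)) (by linarith)
    (F1_zero w (s.re - 1)) (by linarith)

theorem F1_conv {w : Fin 3 → ℝ} (hw : ∀ j, 0 < w j) (s : ℂ) : MellinConvergent (F1 w) s :=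
  mellinConvergent_of_isBigO_rpow (F1_loc hw) (F1_top hw (s.re + 1)) (by linarith)
    (F1_zero w (s.re - 1)) (by linarith)

theorem E1_bound {w : Fin 3 → ℝ} (hw : ∀ j, 0 < w j) :
    ∃ C : ℝ, ∀ s : ℂ, s.re ≤ 4 → ‖E1 w s‖ ≤ C := by
  have h4 := F1_conv hw 4
  have h5 : IntegrableOn (fun t : ℝ => ‖(t : ℂ) ^ ((4 : ℂ) - 1) • F1 w t‖) (Ioi 0) := h4.norm
  refine ⟨∫ t in Ioi (0 : ℝ), ‖(t : ℂ) ^ ((4 : ℂ) - 1) • F1 w t‖, fun s hs => ?_⟩
  unfold E1 mellin
  refine (norm_integral_le_integral_norm _).trans ?_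
  refine setIntegral_mono_on (F1_conv hw s).norm h5 measurableSet_Ioi ?_
  intro t ht
  have ht0 : (0 : ℝ) < t := ht
  rw [norm_smul, norm_smul]
  by_cases h : 1 < t
  · refine mul_le_mul_of_nonneg_right ?_ (norm_nonneg _)
    rw [norm_cpow_eq_rpow_re_of_pos ht0, norm_cpow_eq_rpow_re_of_pos ht0]
    refine Real.rpow_le_rpow_of_exponent_le h.le ?_
    simp
    linarith
  · have : F1 w t = 0 := Set.indicator_of_notMem (by simpa using h) _
    rw [this]
    simp

/-- the integral over `(0, 1]` -/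
theorem int_unit {w : Fin 3 → ℝ} {β : ℕ → ℝ} (hβ : Summable fun k => |β k|)
    (h : ∀ u : ℝ, 0 < u → u ≤ 1 → HasSum (fun k => β k * u ^ k) (u ^ 3 * gen w u)) {s : ℂ}
    (hs : 3 < s.re) :
    HasSum (fun k : ℕ => (β k : ℂ) / (s - (3 - k)))
      (∫ u in Ioc (0 : ℝ) 1, (u : ℂ) ^ (s - 1) • genC w u) := by
  have hre : ∀ k : ℕ, (s - 4 + k).re = s.re - 4 + k := by intro k; simp
  have hint : ∀ k : ℕ, IntegrableOn (fun u : ℝ => (β k : ℂ) * (u : ℂ) ^ (s - 4 + k))
      (Ioc (0 : ℝ) 1) := by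
    intro k
    refine Integrable.const_mul ?_ _
    rw [← IntegrableOn, ← intervalIntegrable_iff_integrableOn_Ioc_of_le zero_le_one]
    refine intervalIntegral.intervalIntegrable_cpow' ?_
    rw [hre]
    have : (0 : ℝ) ≤ k := Nat.cast_nonneg k
    linarith
  have hval : ∀ k : ℕ, ∫ u in Ioc (0 : ℝ) 1, (β k : ℂ) * (u : ℂ) ^ (s - 4 + k) =
      (β k : ℂ) / (s - (3 - k)) := by
    intro k
    have hk : (0 : ℝ) ≤ k := Nat.cast_nonneg k
    rw [integral_const_mul, ← intervalIntegral.integral_of_le zero_le_one,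
      integral_cpow (Or.inl (by rw [hre]; linarith))]
    have h1 : s - 4 + k + 1 = s - (3 - k) := by ring
    have h2 : s - (3 - k) ≠ 0 := by
      intro h3
      have := congrArg Complex.re h3
      simp at this
      linarith
    rw [h1, Complex.ofReal_one, Complex.one_cpow, Complex.ofReal_zero, Complex.zero_cpow h2, sub_zero]
    ring
  have hnorm : ∀ k : ℕ, ∫ u in Ioc (0 : ℝ) 1, ‖(β k : ℂ) * (u : ℂ) ^ (s - 4 + k)‖ =
      |β k| / (s.re - 3 + k) := by
    intro k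
    have hk : (0 : ℝ) ≤ k := Nat.cast_nonneg k
    have h1 : ∫ u in Ioc (0 : ℝ) 1, ‖(β k : ℂ) * (u : ℂ) ^ (s - 4 + k)‖ =
        ∫ u in Ioc (0 : ℝ) 1, |β k| * u ^ (s.re - 4 + k) := by
      refine setIntegral_congr_fun measurableSet_Ioc ?_
      intro u hu
      change ‖(β k : ℂ) * (u : ℂ) ^ (s - 4 + k)‖ = |β k| * u ^ (s.re - 4 + k)
      rw [norm_mul, norm_cpow_eq_rpow_re_of_pos hu.1, hre, Complex.norm_real, Real.norm_eq_abs]
    rw [h1, integral_const_mul, ← intervalIntegral.integral_of_le zero_le_one,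
      integral_rpow (Or.inl (by linarith))]
    have h2 : s.re - 4 + k + 1 = s.re - 3 + k := by ring
    rw [h2, Real.one_rpow, Real.zero_rpow (by linarith)]
    ring
  have hsum : Summable fun k : ℕ => ∫ u in Ioc (0 : ℝ) 1, ‖(β k : ℂ) * (u : ℂ) ^ (s - 4 + k)‖ := by
    simp only [hnorm]
    refine Summable.of_nonneg_of_le (fun k => ?_) (fun k => ?_) (hβ.div_const (s.re - 3))
    · have hk : (0 : ℝ) ≤ k := Nat.cast_nonneg k
      exact div_nonneg (abs_nonneg _) (by linarith)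
    · have hk : (0 : ℝ) ≤ k := Nat.cast_nonneg k
      exact div_le_div_of_nonneg_left (abs_nonneg _) (by linarith) (by linarith)
  have main := hasSum_integral_of_summable_integral_norm hint hsum
  simp only [hval] at main
  suffices hcongr : ∫ u in Ioc (0 : ℝ) 1, (u : ℂ) ^ (s - 1) • genC w u =
      ∫ u in Ioc (0 : ℝ) 1, ∑' k : ℕ, (β k : ℂ) * (u : ℂ) ^ (s - 4 + k) by
    rw [hcongr]
    exact main
  refine setIntegral_congr_fun measurableSet_Ioc ?_
  intro u hu
  have hu0 : (u : ℂ) ≠ 0 := by exact_mod_cast hu.1.ne'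
  have h1 := (Complex.hasSum_ofReal).2 (h u hu.1 hu.2)
  have h2 : HasSum (fun k : ℕ => (β k : ℂ) * (u : ℂ) ^ (s - 4 + k)) ((u : ℂ) ^ (s - 1) * genC w u) := by
    have h3 := h1.mul_left ((u : ℂ) ^ (s - 4))
    have h5 : (fun k : ℕ => (β k : ℂ) * (u : ℂ) ^ (s - 4 + k)) =
        fun k : ℕ => (u : ℂ) ^ (s - 4) * ((β k * u ^ k : ℝ) : ℂ) := by
      funext k
      rw [Complex.cpow_add _ _ hu0, Complex.cpow_natCast]
      push_cast
      ring
    have h6 : (u : ℂ) ^ (s - 1) * genC w u = (u : ℂ) ^ (s - 4) * ((u ^ 3 * gen w u : ℝ) : ℂ) := by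
      have h4 : s - 1 = (s - 4) + ((3 : ℕ) : ℂ) := by push_cast; ring
      rw [h4, Complex.cpow_add _ _ hu0, Complex.cpow_natCast, genC]
      push_cast
      ring
    rw [h5, h6]
    exact h3
  exact h2.tsum_eq.symm

theorem mellin_split {w : Fin 3 → ℝ} (hw : ∀ j, 0 < w j) {β : ℕ → ℝ}
    (hβ : Summable fun k => |β k|)
    (h : ∀ u : ℝ, 0 < u → u ≤ 1 → HasSum (fun k => β k * u ^ k) (u ^ 3 * gen w u)) {s : ℂ}
    (hs : 3 < s.re) :
    mellin (genC w) s = E1 w s + ∑' k : ℕ, (β k : ℂ) / (s - (3 - k)) := by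
  have hc : MellinConvergent (genC w) s :=
    mellinConvergent_of_isBigO_rpow (genC_loc hw) (genC_top hw (s.re + 1)) (by linarith)
      (genC_zero hβ h) hs
  have h1 : E1 w s = ∫ u in Ioi (1 : ℝ), (u : ℂ) ^ (s - 1) • genC w u := by
    unfold E1 mellin F1
    have h2 : ∀ u : ℝ, (u : ℂ) ^ (s - 1) • (Ioi (1 : ℝ)).indicator (genC w) u =
        (Ioi (1 : ℝ)).indicator (fun u : ℝ => (u : ℂ) ^ (s - 1) • genC w u) u := by
      intro u
      by_cases hu : u ∈ Ioi (1 : ℝ)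
      · rw [Set.indicator_of_mem hu, Set.indicator_of_mem hu]
      · rw [Set.indicator_of_notMem hu, Set.indicator_of_notMem hu, smul_zero]
    simp only [h2]
    rw [setIntegral_indicator measurableSet_Ioi]
    congr 2
    ext u
    simp only [mem_inter_iff, mem_Ioi]
    constructor
    · exact fun h => h.2
    · exact fun h => ⟨by linarith, h⟩
  rw [h1, (int_unit hβ h hs).tsum_eq, add_comm]
  unfold mellin
  have hdis : Disjoint (Ioc (0 : ℝ) 1) (Ioi (1 : ℝ)) := by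
    rw [Set.disjoint_left]
    intro a ha hb
    exact absurd ha.2 (not_le.2 hb)
  rw [← setIntegral_union hdis measurableSet_Ioi
    (hc.mono_set Ioc_subset_Ioi_self) (hc.mono_set (Ioi_subset_Ioi zero_le_one)),
    Ioc_union_Ioi_eq_Ioi zero_le_one]

/-- the function `1 / Γ` -/
def rG (s : ℂ) : ℂ := (Gamma s)⁻¹

theorem rG_diff : Differentiable ℂ rG := Complex.differentiable_one_div_Gamma

/-- divided differences of `1 / Γ` -/
def D (k : ℕ) (s : ℂ) : ℂ := dslope rG (3 - k) s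

theorem D_diff (k : ℕ) : Differentiable ℂ (D k) := by
  have h := (Complex.differentiableOn_dslope (s := univ) (c := (3 : ℂ) - k) (f := rG)
    univ_mem).2 rG_diff.differentiableOn
  exact differentiableOn_univ.1 h

theorem D_eq {k : ℕ} {s : ℂ} (h : s ≠ 3 - k) :
    D k s = (rG s - rG (3 - k)) / (s - (3 - k)) := by
  rw [D, dslope_of_ne _ h, slope_def_field]

theorem rG_zero {k : ℕ} (hk : 3 ≤ k) : rG (3 - k) = 0 := by
  obtain ⟨n, rfl⟩ := Nat.exists_eq_add_of_le hk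
  have h : (3 : ℂ) - ((3 + n : ℕ) : ℂ) = -n := by push_cast; ring
  rw [rG, h, Complex.Gamma_neg_nat_eq_zero, inv_zero]

theorem D_bound (R : ℝ) : ∃ M : ℝ, 0 ≤ M ∧ ∀ (k : ℕ) (s : ℂ), ‖s‖ ≤ R → ‖D k s‖ ≤ M := by
  obtain ⟨K, hK⟩ := exists_nat_ge (|R| + 4)
  obtain ⟨M0, hM0⟩ := (isCompact_closedBall (0 : ℂ) R).exists_bound_of_continuousOn
    rG_diff.continuous.continuousOn
  have h1 : ∀ k : ℕ, ∃ M : ℝ, ∀ s ∈ Metric.closedBall (0 : ℂ) R, ‖D k s‖ ≤ M := fun k =>
    (isCompact_closedBall (0 : ℂ) R).exists_bound_of_continuousOn (D_diff k).continuous.continuousOn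
  choose M hM using h1
  refine ⟨|M0| + ∑ k ∈ Finset.range K, |M k|, by positivity, fun k s hs => ?_⟩
  have hs' : s ∈ Metric.closedBall (0 : ℂ) R := by simpa using hs
  by_cases hk : k < K
  · have h2 := hM k s hs'
    have h3 : |M k| ≤ ∑ k ∈ Finset.range K, |M k| :=
      Finset.single_le_sum (f := fun k => |M k|) (fun _ _ => abs_nonneg _) (Finset.mem_range.2 hk)
    have h4 := le_abs_self (M k)
    have h5 := abs_nonneg M0
    linarith
  · have hkK : (K : ℝ) ≤ k := by exact_mod_cast not_lt.1 hk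
    have hR := le_abs_self R
    have hk4 : (4 : ℝ) ≤ k := by have := abs_nonneg R; linarith
    have hk3 : 3 ≤ k := by
      have : (4 : ℕ) ≤ k := by exact_mod_cast hk4
      omega
    have hd : 1 ≤ ‖s - (3 - k)‖ := by
      have h2 : ‖((k : ℂ) - 3)‖ = k - 3 := by
        have : ((k : ℂ) - 3) = (((k : ℝ) - 3 : ℝ) : ℂ) := by push_cast; ring
        rw [this, Complex.norm_real, Real.norm_of_nonneg (by linarith)]
      have h3 : ‖((k : ℂ) - 3)‖ ≤ ‖s - (3 - k)‖ + ‖s‖ := by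
        have := norm_sub_le (s - (3 - (k : ℂ))) s
        have h4 : s - (3 - (k : ℂ)) - s = (k : ℂ) - 3 := by ring
        rwa [h4] at this
      linarith
    have hne : s ≠ 3 - k := by
      intro h
      rw [h, sub_self, norm_zero] at hd
      linarith
    rw [D_eq hne, rG_zero hk3, sub_zero, norm_div]
    have h5 := hM0 s hs'
    have h6 : ‖rG s‖ / ‖s - (3 - k)‖ ≤ ‖rG s‖ := div_le_self (norm_nonneg _) hd
    have h7 := le_abs_self M0
    have h8 : 0 ≤ ∑ k ∈ Finset.range K, |M k| := by positivity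
    linarith

/-- the second entire part -/
def E2 (β : ℕ → ℝ) (s : ℂ) : ℂ := ∑' k : ℕ, (β k : ℂ) * D k s

theorem E2_term {β : ℕ → ℝ} {M : ℝ} {k : ℕ} {s : ℂ} (h : ‖D k s‖ ≤ M) :
    ‖(β k : ℂ) * D k s‖ ≤ |β k| * M := by
  rw [norm_mul, Complex.norm_real, Real.norm_eq_abs]
  exact mul_le_mul_of_nonneg_left h (abs_nonneg _)

theorem E2_diff {β : ℕ → ℝ} (hβ : Summable fun k => |β k|) : Differentiable ℂ (E2 β) := by
  intro s
  obtain ⟨M, -, hM⟩ := D_bound (‖s‖ + 1)
  have h1 : DifferentiableOn ℂ (E2 β) (Metric.ball (0 : ℂ) (‖s‖ + 1)) := by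
    refine Complex.differentiableOn_tsum_of_summable_norm (hβ.mul_right M)
      (fun k => ((D_diff k).const_mul _).differentiableOn) Metric.isOpen_ball ?_
    intro k z hz
    refine E2_term (hM k z ?_)
    have : ‖z‖ < ‖s‖ + 1 := by simpa using hz
    exact this.le
  exact (h1 s (by simp)).differentiableAt (Metric.isOpen_ball.mem_nhds (by simp))

theorem E2_summable {β : ℕ → ℝ} (hβ : Summable fun k => |β k|) (s : ℂ) :
    Summable fun k : ℕ => (β k : ℂ) * D k s := by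
  obtain ⟨M, -, hM⟩ := D_bound ‖s‖
  exact Summable.of_norm_bounded (hβ.mul_right M) fun k => E2_term (hM k s le_rfl)

theorem E2_le {β : ℕ → ℝ} (hβ : Summable fun k => |β k|) {s : ℂ} {M : ℝ}
    (hM : ∀ k, ‖D k s‖ ≤ M) : ‖E2 β s‖ ≤ (∑' k, |β k|) * M := by
  have h1 : Summable fun k : ℕ => ‖(β k : ℂ) * D k s‖ :=
    Summable.of_nonneg_of_le (fun _ => norm_nonneg _) (fun k => E2_term (hM k)) (hβ.mul_right M)
  unfold E2
  refine (norm_tsum_le_tsum_norm h1).trans ?_
  rw [← tsum_mul_right]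
  exact h1.tsum_le_tsum (fun k => E2_term (hM k)) (hβ.mul_right M)

theorem E2_growth {β : ℕ → ℝ} (hβ : Summable fun k => |β k|) (hR : S_RG) :
    ∃ C : ℝ, ∀ s : ℂ, 3 / 2 ≤ s.re → s.re ≤ 4 → ‖E2 β s‖ ≤ C * Real.exp (4 * |s.im|) := by
  obtain ⟨C, hC⟩ := hR
  obtain ⟨M, hM0, hM⟩ := D_bound 5
  set B : ℝ := ∑ k ∈ Finset.range 3, ‖rG (3 - k)‖ with hB
  have hB0 : 0 ≤ B := by positivity
  have hBk : ∀ k : ℕ, ‖rG (3 - k)‖ ≤ B := by
    intro k
    by_cases hk : k < 3
    · exact Finset.single_le_sum (f := fun k : ℕ => ‖rG (3 - k)‖) (fun _ _ => norm_nonneg _)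
        (Finset.mem_range.2 hk)
    · rw [rG_zero (not_lt.1 hk), norm_zero]
      exact hB0
  have hS0 : 0 ≤ ∑' k, |β k| := tsum_nonneg fun _ => abs_nonneg _
  refine ⟨(∑' k, |β k|) * (M + |C| + B), fun s h1 h2 => ?_⟩
  have he : 1 ≤ Real.exp (4 * |s.im|) := Real.one_le_exp (by positivity)
  have key : ∀ k, ‖D k s‖ ≤ (M + |C| + B) * Real.exp (4 * |s.im|) := by
    intro k
    by_cases ht : |s.im| ≤ 1
    · have h3 : ‖s‖ ≤ 5 := by
        have h4 := Complex.norm_le_abs_re_add_abs_im s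
        have h5 : |s.re| ≤ 4 := by rw [abs_of_nonneg (by linarith)]; exact h2
        linarith
      have h6 := hM k s h3
      have h7 : 0 ≤ M + |C| + B := by positivity
      have h8 : M ≤ M + |C| + B := by
        have := abs_nonneg C
        linarith
      nlinarith
    · have ht' : 1 ≤ |s.im| := (not_le.1 ht).le
      have hd : 1 ≤ ‖s - (3 - k)‖ := by
        have h3 := Complex.abs_im_le_norm (s - (3 - k))
        have h4 : (s - (3 - k)).im = s.im := by simp
        rw [h4] at h3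
        linarith
      have hne : s ≠ 3 - k := by
        intro h
        rw [h, sub_self, norm_zero] at hd
        linarith
      rw [D_eq hne, norm_div]
      have h5 : ‖rG s - rG (3 - k)‖ ≤ ‖rG s‖ + ‖rG (3 - k)‖ := norm_sub_le _ _
      have h6 : ‖rG s - rG (3 - k)‖ / ‖s - (3 - k)‖ ≤ ‖rG s - rG (3 - k)‖ :=
        div_le_self (norm_nonneg _) hd
      have h7 : ‖rG s‖ ≤ C * Real.exp (4 * |s.im|) := hC s h1 h2
      have h8 : C * Real.exp (4 * |s.im|) ≤ |C| * Real.exp (4 * |s.im|) :=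
        mul_le_mul_of_nonneg_right (le_abs_self C) (by positivity)
      have h9 := hBk k
      have h10 : B ≤ B * Real.exp (4 * |s.im|) := le_mul_of_one_le_right hB0 he
      have h11 : 0 ≤ M * Real.exp (4 * |s.im|) := by positivity
      have h12 : (M + |C| + B) * Real.exp (4 * |s.im|) =
        M * Real.exp (4 * |s.im|) + |C| * Real.exp (4 * |s.im|) + B * Real.exp (4 * |s.im|) := by ring
      rw [h12]
      linarith
  have := E2_le hβ key
  rw [← mul_assoc] at this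
  exact this

theorem split_tsum {β : ℕ → ℝ} (hβ : Summable fun k => |β k|) {s : ℂ} (hs : 3 < s.re) :
    ∑' k : ℕ, rG s * ((β k : ℂ) / (s - (3 - k))) =
      E2 β s + ∑ k ∈ Finset.range 3, (β k : ℂ) * (rG (3 - k) / (s - (3 - k))) := by
  have hne : ∀ k : ℕ, s ≠ 3 - k := by
    intro k h
    have h1 := congrArg Complex.re h
    have hk : (0 : ℝ) ≤ k := Nat.cast_nonneg k
    simp at h1
    linarith
  have h1 : ∀ k : ℕ, rG s * ((β k : ℂ) / (s - (3 - k))) =
      (β k : ℂ) * D k s + (β k : ℂ) * (rG (3 - k) / (s - (3 - k))) := by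
    intro k
    rw [D_eq (hne k)]
    have : s - (3 - k) ≠ 0 := sub_ne_zero.2 (hne k)
    field_simp
    ring
  simp only [h1]
  have h2 : ∀ k ∉ Finset.range 3, (β k : ℂ) * (rG (3 - k) / (s - (3 - k))) = 0 := by
    intro k hk
    rw [rG_zero (by simpa using hk), zero_div, mul_zero]
  rw [(E2_summable hβ s).tsum_add (summable_of_ne_finset_zero h2), tsum_eq_sum h2, E2]

end Cont

open Cont in
theorem t_CONT : S_CONT := by
  intro hS hG hBet hR w hW
  have hw : ∀ j, 0 < w j := fun j => (hW j).1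
  obtain ⟨β, hβ, h⟩ := hBet w hW
  have h' : ∀ u : ℝ, 0 < u → u ≤ 1 → HasSum (fun k => β k * u ^ k) (u ^ 3 * gen w u) := h
  refine ⟨fun s => rG s * E1 w s + E2 β s, ![β 2 * rG 1, β 1 * rG 2, β 0 * rG 3], ?_, ?_, ?_⟩
  · exact (rG_diff.mul (E1_diff hw)).add (E2_diff hβ)
  · intro s hs
    have h1 := mellin_gen hS hG hw hs
    have h2 := mellin_split hw hβ h' hs
    have hΓ : Gamma s ≠ 0 := Complex.Gamma_ne_zero_of_re_pos (by linarith)
    have h3 : Z w s = rG s * (E1 w s + ∑' k : ℕ, (β k : ℂ) / (s - (3 - k))) := by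
      rw [← h2, h1, rG]
      field_simp
    rw [h3, mul_add, ← tsum_mul_left, split_tsum hβ hs, add_assoc]
    congr 2
    simp only [pol, Finset.sum_range_succ, Finset.sum_range_zero, Fin.sum_univ_three]
    simp
    norm_num
    ring
  · obtain ⟨C1, hC1⟩ := E1_bound hw
    obtain ⟨C2, hC2⟩ := E2_growth hβ hR
    obtain ⟨C, hC⟩ := hR
    refine ⟨|C| * |C1| + C2, fun s h1 h2 => ?_⟩
    have h3 := hC1 s h2
    have h4 := hC2 s h1 h2
    have h5 : ‖rG s‖ ≤ C * Real.exp (4 * |s.im|) := hC s h1 h2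
    have h6 : ‖rG s‖ ≤ |C| * Real.exp (4 * |s.im|) :=
      h5.trans (mul_le_mul_of_nonneg_right (le_abs_self C) (by positivity))
    have h7 : ‖E1 w s‖ ≤ |C1| := h3.trans (le_abs_self C1)
    have h8 : ‖rG s * E1 w s‖ ≤ |C| * Real.exp (4 * |s.im|) * |C1| := by
      rw [norm_mul]
      exact mul_le_mul h6 h7 (norm_nonneg _) (by positivity)
    refine (norm_add_le _ _).trans ?_
    nlinarith

end

end Pool.Agent.H337_barnes
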