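import Pool.Agent.H337_barnes.Stmts

/-! DIM: the weights are independent over the rationals -/

set_option autoImplicit false

namespace Pool.Agent.H337_barnes

theorem t_DIM : S_DIM := by
  constructor
  · obtain ⟨θ, hθ, h0, h1⟩ := dense_liouville.exists_between (zero_lt_one : (0 : ℝ) < 1)
    exact ⟨θ, hθ, h0, h1⟩
  · intro θ hθ
    have htr : Transcendental ℚ θ := by
      intro h
      exact hθ.transcendental ((IsFractionRing.isAlgebraic_iff ℤ ℚ ℝ).2 h)
    have hli : LinearIndependent ℚ (![1, θ, θ ^ 2] : Fin 3 → ℝ) := by
      rw [Fintype.linearIndependent_iff]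
      intro g hg
      rw [Fin.sum_univ_three] at hg
      simp only [Matrix.cons_val_zero, Matrix.cons_val_one, Matrix.cons_val_two, Matrix.tail_cons,
        Matrix.head_cons] at hg
      let P : Polynomial ℚ := Polynomial.C (g 0) + Polynomial.C (g 1) * Polynomial.X +
        Polynomial.C (g 2) * Polynomial.X ^ 2
      have hP : Polynomial.aeval θ P = 0 := by
        simp only [P, map_add, map_mul, Polynomial.aeval_C, Polynomial.aeval_X, map_pow]
        rw [← hg]
        simp only [Algebra.smul_def, mul_one]
      have hP0 : P = 0 := by
        by_contra hne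
        exact htr ⟨P, hne, hP⟩
      have h0 : P.coeff 0 = g 0 := by
        simp [P]
      have h1 : P.coeff 1 = g 1 := by
        simp [P, Polynomial.coeff_X, Polynomial.coeff_C]
      have h2 : P.coeff 2 = g 2 := by
        simp [P, Polynomial.coeff_X, Polynomial.coeff_C]
      rw [hP0, Polynomial.coeff_zero] at h0 h1 h2
      intro i
      fin_cases i
      · exact h0.symm
      · exact h1.symm
      · exact h2.symm
    rw [finrank_span_eq_card hli, Fintype.card_fin]

end Pool.Agent.H337_barnes
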