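import Pool.Agent.H337_barnes.Stmts

/-!
# Barnes zeta functions: the smooth counting function as a Gaussian integral (part GAU)
-/

set_option autoImplicit false

namespace Pool.Agent.H337_barnes

open Complex MeasureTheory

namespace Gau

theorem lam_pos {w : Fin 3 → ℝ} (hw : ∀ j, 0 < w j) (m : Fin 3 → ℕ) : 0 < lam w m := by
  unfold lam
  have : 0 ≤ ∑ j, (m j : ℝ) * w j :=
    Finset.sum_nonneg fun j _ => mul_nonneg (Nat.cast_nonneg _) (hw j).le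
  linarith

/-- the single term -/
theorem term_eq {y : ℝ} (hy : 0 < y) (κ x : ℝ) (hx : 0 < x) (t : ℝ) :
    ((y : ℝ) : ℂ) ^ (-(4 + t * I)) * ker κ x (4 + t * I) =
      cexp (-((κ : ℂ) ^ 2 / 2) * (t : ℂ) ^ 2 +
        (I * (4 * (κ : ℂ) ^ 2 + (Real.log (x / y) : ℝ))) * (t : ℂ) +
        (8 * (κ : ℂ) ^ 2 + 4 * (Real.log (x / y) : ℝ))) := by
  unfold ker
  rw [cpow_def_of_ne_zero (by exact_mod_cast hy.ne'), ← Complex.exp_add, ← ofReal_log hy.le,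
    Real.log_div hx.ne' hy.ne']
  congr 1
  push_cast
  ring_nf
  simp only [I_sq]
  ring

theorem term_norm {y : ℝ} (hy : 0 < y) (κ x : ℝ) (hx : 0 < x) (t : ℝ) :
    ‖((y : ℝ) : ℂ) ^ (-(4 + t * I)) * ker κ x (4 + t * I)‖ =
      y ^ (-4 : ℝ) * (Real.exp (8 * κ ^ 2) * x ^ (4 : ℝ) * Real.exp (-(κ ^ 2 / 2) * t ^ 2)) := by
  rw [term_eq hy κ x hx t, Complex.norm_exp, Real.rpow_def_of_pos hy, Real.rpow_def_of_pos hx,
    ← Real.exp_add, ← Real.exp_add, ← Real.exp_add, Real.log_div hx.ne' hy.ne']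
  congr 1
  simp [pow_two]
  ring

theorem norm_cpow4 {y : ℝ} (hy : 0 < y) (t : ℝ) :
    ‖((y : ℝ) : ℂ) ^ (-(4 + t * I))‖ = y ^ (-4 : ℝ) := by
  rw [norm_cpow_eq_rpow_re_of_pos hy]
  simp

theorem norm_ker4 (κ x : ℝ) (hx : 0 < x) (t : ℝ) :
    ‖ker κ x (4 + t * I)‖ = Real.exp (8 * κ ^ 2) * x ^ (4 : ℝ) * Real.exp (-(κ ^ 2 / 2) * t ^ 2) := by
  have h := term_norm one_pos κ x hx t
  rw [norm_mul, norm_cpow4 one_pos, Real.one_rpow, one_mul, one_mul] at h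
  exact h

theorem gauss_integrable {κ : ℝ} (hκ : 0 < κ) :
    Integrable fun t : ℝ => Real.exp (-(κ ^ 2 / 2) * t ^ 2) :=
  integrable_exp_neg_mul_sq (by positivity)

theorem term_integral {y : ℝ} (hy : 0 < y) {κ x : ℝ} (hκ : 0 < κ) (hx : 0 < x) :
    ∫ t : ℝ, ((y : ℝ) : ℂ) ^ (-(4 + t * I)) * ker κ x (4 + t * I) =
      ((Real.sqrt (2 * Real.pi) / κ * Real.exp (-(Real.log (x / y)) ^ 2 / (2 * κ ^ 2)) : ℝ) : ℂ) := by
  simp_rw [term_eq hy κ x hx]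
  have hκc : (κ : ℂ) ≠ 0 := by exact_mod_cast hκ.ne'
  have hb : (-((κ : ℂ) ^ 2 / 2)).re < 0 := by
    have : (-((κ : ℂ) ^ 2 / 2)) = ((-(κ ^ 2 / 2) : ℝ) : ℂ) := by push_cast; ring
    rw [this, ofReal_re]
    have : 0 < κ ^ 2 := by positivity
    linarith
  rw [integral_cexp_quadratic hb]
  have h1 : ((Real.pi : ℂ) / - -((κ : ℂ) ^ 2 / 2)) ^ (1 / 2 : ℂ) =
      ((Real.sqrt (2 * Real.pi) / κ : ℝ) : ℂ) := by
    have h2 : (Real.pi : ℂ) / - -((κ : ℂ) ^ 2 / 2) = ((2 * Real.pi / κ ^ 2 : ℝ) : ℂ) := by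
      push_cast
      field_simp
    rw [h2]
    have h3 : ((1 / 2 : ℂ)) = ((1 / 2 : ℝ) : ℂ) := by push_cast; ring
    rw [h3, ← ofReal_cpow (by positivity), ← Real.sqrt_eq_rpow, Real.sqrt_div (by positivity),
      Real.sqrt_sq hκ.le]
  rw [h1, ofReal_mul, ofReal_exp]
  congr 2
  push_cast
  field_simp
  ring_nf
  simp only [I_sq]
  ring

theorem cont_Z {w : Fin 3 → ℝ} (hw : ∀ j, 0 < w j)
    (hs : Summable fun m : Fin 3 → ℕ => (lam w m) ^ (-4 : ℝ)) :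
    Continuous fun t : ℝ => Z w (4 + t * I) := by
  unfold Z
  refine continuous_tsum (u := fun m : Fin 3 → ℕ => (lam w m) ^ (-4 : ℝ)) (fun m => ?_) hs
    (fun m t => (norm_cpow4 (lam_pos hw m) t).le)
  have h0 : ((lam w m : ℝ) : ℂ) ≠ 0 := by exact_mod_cast (lam_pos hw m).ne'
  exact Continuous.const_cpow (by fun_prop) (Or.inl h0)

theorem norm_Z_le {w : Fin 3 → ℝ} (hw : ∀ j, 0 < w j)
    (hs : Summable fun m : Fin 3 → ℕ => (lam w m) ^ (-4 : ℝ)) (t : ℝ) :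
    ‖Z w (4 + t * I)‖ ≤ ∑' m : Fin 3 → ℕ, (lam w m) ^ (-4 : ℝ) := by
  unfold Z
  have h : ∀ m : Fin 3 → ℕ, ‖((lam w m : ℝ) : ℂ) ^ (-(4 + t * I))‖ = (lam w m) ^ (-4 : ℝ) :=
    fun m => norm_cpow4 (lam_pos hw m) t
  have hs' : Summable fun m : Fin 3 → ℕ => ‖((lam w m : ℝ) : ℂ) ^ (-(4 + t * I))‖ := by
    simpa only [h] using hs
  refine (norm_tsum_le_tsum_norm hs').trans (le_of_eq ?_)
  exact tsum_congr h

end Gau

open Gau in
theorem t_GAU : S_GAU := by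
  intro hSUM w hw κ x hκ hx
  have hs : Summable fun m : Fin 3 → ℕ => (lam w m) ^ (-4 : ℝ) := hSUM w hw 4 (by norm_num)
  let F : (Fin 3 → ℕ) → ℝ → ℂ := fun m t =>
    ((lam w m : ℝ) : ℂ) ^ (-(4 + t * I)) * ker κ x (4 + t * I)
  let K : ℝ := ∫ t : ℝ, Real.exp (8 * κ ^ 2) * x ^ (4 : ℝ) * Real.exp (-(κ ^ 2 / 2) * t ^ 2)
  have hgi : Integrable fun t : ℝ =>
      Real.exp (8 * κ ^ 2) * x ^ (4 : ℝ) * Real.exp (-(κ ^ 2 / 2) * t ^ 2) :=
    (gauss_integrable hκ).const_mul _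
  have hkc : Continuous fun t : ℝ => ker κ x (4 + t * I) := by
    unfold ker; fun_prop
  have hFc : ∀ m, Continuous (F m) := fun m => by
    have h0 : ((lam w m : ℝ) : ℂ) ≠ 0 := by exact_mod_cast (lam_pos hw m).ne'
    exact (Continuous.const_cpow (by fun_prop) (Or.inl h0)).mul hkc
  have hFn : ∀ m t, ‖F m t‖ = (lam w m) ^ (-4 : ℝ) *
      (Real.exp (8 * κ ^ 2) * x ^ (4 : ℝ) * Real.exp (-(κ ^ 2 / 2) * t ^ 2)) :=
    fun m t => term_norm (lam_pos hw m) κ x hx t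
  have hFi : ∀ m, Integrable (F m) := fun m =>
    (hgi.const_mul ((lam w m) ^ (-4 : ℝ))).mono' (hFc m).aestronglyMeasurable
      (Filter.Eventually.of_forall fun t => (hFn m t).le)
  have hFs : Summable fun m => ∫ t, ‖F m t‖ := by
    have h1 : ∀ m, ∫ t, ‖F m t‖ = (lam w m) ^ (-4 : ℝ) * K := fun m => by
      simp_rw [hFn m]
      exact integral_const_mul _ _
    simp_rw [h1]
    exact hs.mul_right K
  have hmain := hasSum_integral_of_summable_integral_norm hFi hFs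
  have hZ : ∀ t : ℝ, ∑' m, F m t = Z w (4 + t * I) * ker κ x (4 + t * I) := fun t => by
    unfold Z
    rw [← tsum_mul_right]
  simp_rw [hZ] at hmain
  have hint : ∀ m, ∫ t, F m t = ((Real.sqrt (2 * Real.pi) / κ *
      Real.exp (-(Real.log (x / lam w m)) ^ 2 / (2 * κ ^ 2)) : ℝ) : ℂ) :=
    fun m => term_integral (lam_pos hw m) hκ hx
  simp_rw [hint] at hmain
  have hc : Real.sqrt (2 * Real.pi) / κ ≠ 0 := by positivity
  have hsum1 : Summable fun m : Fin 3 → ℕ => Real.sqrt (2 * Real.pi) / κ *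
      Real.exp (-(Real.log (x / lam w m)) ^ 2 / (2 * κ ^ 2)) :=
    Complex.summable_ofReal.1 hmain.summable
  have hsum : Summable fun m : Fin 3 → ℕ =>
      Real.exp (-(Real.log (x / lam w m)) ^ 2 / (2 * κ ^ 2)) :=
    (summable_mul_left_iff hc).1 hsum1
  refine ⟨hsum, ?_, ?_⟩
  · refine (hgi.const_mul (∑' m : Fin 3 → ℕ, (lam w m) ^ (-4 : ℝ))).mono'
      ((cont_Z hw hs).mul hkc).aestronglyMeasurable (Filter.Eventually.of_forall fun t => ?_)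
    rw [norm_mul, norm_ker4 κ x hx]
    exact mul_le_mul_of_nonneg_right (norm_Z_le hw hs t) (by positivity)
  · have h1 := hmain.tsum_eq
    rw [← h1, ← Complex.ofReal_tsum, tsum_mul_left]
    unfold cnt
    rw [← ofReal_mul]
    congr 1
    have h2 : Real.sqrt (2 * Real.pi) ≠ 0 := by positivity
    field_simp

end Pool.Agent.H337_barnes
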