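import Pool.Agent.H337_barnes.Stmts

set_option autoImplicit false

namespace Pool.Agent.H337_barnes

open Complex MeasureTheory

theorem t_LB : S_LB := by
  intro hSUM hGAU hSHI hPOL hUP hCLU θ hL h0 h1 E c hE hZ hgr M
  have hw : ∀ j, 0 < (![1, θ, θ ^ 2] : Fin 3 → ℝ) j := by
    intro j
    fin_cases j
    · simp
    · simpa using h0
    · simpa using pow_pos h0 2
  obtain ⟨C0, hC0⟩ := hUP hSUM hGAU hSHI hPOL ![1, θ, θ ^ 2] E c hw hE hZ hgr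
  set C : ℝ := max C0 1 with hC
  have hC1 : 1 ≤ C := le_max_right _ _
  have hCC : C0 ≤ C := le_max_left _ _
  have he : 0 < Real.exp 1 := Real.exp_pos 1
  set A : ℝ := Real.exp 1 * C * (|M| + 2) with hA
  have hA0 : 0 < A := by positivity
  obtain ⟨q, hq, hq2, hcl⟩ := hCLU hSUM hGAU θ hL h0 h1 (⌈A ^ 5⌉₊ + 1)
  have hqA : A ^ 5 < q := by
    have h2 : A ^ 5 ≤ (⌈A ^ 5⌉₊ : ℝ) := Nat.le_ceil _
    have h3 : ((⌈A ^ 5⌉₊ + 1 : ℕ) : ℝ) ≤ q := by exact_mod_cast hq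
    push_cast at h3
    linarith
  have hqpos : (0 : ℝ) < q := by
    have : (2 : ℝ) ≤ q := by exact_mod_cast hq2
    linarith
  have hq1 : (1 : ℝ) ≤ q := by
    have : (2 : ℝ) ≤ q := by exact_mod_cast hq2
    linarith
  have hκ : (0 : ℝ) < ((q : ℝ) ^ 120)⁻¹ := by positivity
  have hκ1 : ((q : ℝ) ^ 120)⁻¹ ≤ 1 := inv_le_one_of_one_le₀ (one_le_pow₀ hq1)
  refine ⟨((q : ℝ) ^ 120)⁻¹, hκ, hκ1, ?_⟩
  obtain ⟨-, hub⟩ := hC0 ((q : ℝ) ^ 120)⁻¹ ((q : ℝ) ^ 20) hκ hκ1 (by positivity)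
  set J : ℝ := ((q : ℝ) ^ 120)⁻¹ * ∫ t : ℝ, ‖E (3 / 2 + t * I)‖ *
    Real.exp (-((((q : ℝ) ^ 120)⁻¹) ^ 2 * t ^ 2 / 2)) with hJ
  have hJ0 : 0 ≤ J := mul_nonneg hκ.le (integral_nonneg fun t => by positivity)
  have hs : Real.sqrt (((q : ℝ) ^ 120)⁻¹) = ((q : ℝ) ^ 60)⁻¹ := by
    rw [Real.sqrt_eq_iff_mul_self_eq (by positivity) (by positivity)]
    rw [← mul_inv, ← pow_add]
  have h32 : ((q : ℝ) ^ 20) ^ (3 / 2 : ℝ) = (q : ℝ) ^ 30 := by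
    rw [← Real.rpow_natCast, ← Real.rpow_natCast, ← Real.rpow_mul hqpos.le]
    norm_num
  have h80 : ((q : ℝ) ^ 20) ^ 4 * ((q : ℝ) ^ 60)⁻¹ = (q : ℝ) ^ 20 := by
    field_simp
  rw [hs, h32, h80] at hub
  have hb : Real.exp (-1) * (q : ℝ) ^ 35 ≤ C * ((q : ℝ) ^ 20 + (q : ℝ) ^ 30 * J) :=
    (hcl.trans hub).trans (mul_le_mul_of_nonneg_right hCC (by positivity))
  -- q ^ 5 ≤ e C (1 + J)
  have hb2 : (q : ℝ) ^ 5 ≤ Real.exp 1 * C * (1 + J) := by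
    have h20 : (q : ℝ) ^ 20 ≤ (q : ℝ) ^ 30 := pow_le_pow_right₀ hq1 (by norm_num)
    have h30 : (0 : ℝ) < (q : ℝ) ^ 30 := by positivity
    have h4 : Real.exp (-1) * (q : ℝ) ^ 35 ≤ C * ((q : ℝ) ^ 30 * (1 + J)) := by
      refine hb.trans (mul_le_mul_of_nonneg_left ?_ (by positivity))
      linarith
    have h5 : (q : ℝ) ^ 35 = Real.exp 1 * (Real.exp (-1) * (q : ℝ) ^ 35) := by
      rw [← mul_assoc, ← Real.exp_add]; simp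
    have h6 : (q : ℝ) ^ 35 ≤ Real.exp 1 * (C * ((q : ℝ) ^ 30 * (1 + J))) := by
      rw [h5]
      exact mul_le_mul_of_nonneg_left h4 he.le
    have h7 : (q : ℝ) ^ 5 * (q : ℝ) ^ 30 ≤ (Real.exp 1 * C * (1 + J)) * (q : ℝ) ^ 30 := by
      calc (q : ℝ) ^ 5 * (q : ℝ) ^ 30 = (q : ℝ) ^ 35 := by ring
        _ ≤ _ := h6
        _ = _ := by ring
    exact le_of_mul_le_mul_right h7 h30
  -- the exponent
  have hpow : (((q : ℝ) ^ 120)⁻¹) ^ (-(1 / 25) : ℝ) = (q : ℝ) ^ (24 / 5 : ℝ) := by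
    rw [Real.inv_rpow (by positivity), ← Real.rpow_neg (by positivity), ← Real.rpow_natCast,
      ← Real.rpow_mul hqpos.le]
    norm_num
  rw [hpow]
  have hq5 : (q : ℝ) ^ 5 = (q : ℝ) ^ (24 / 5 : ℝ) * (q : ℝ) ^ (1 / 5 : ℝ) := by
    rw [← Real.rpow_add hqpos, ← Real.rpow_natCast]
    norm_num
  have hAq : A < (q : ℝ) ^ (1 / 5 : ℝ) := by
    have h8 : A = (A ^ 5) ^ (1 / 5 : ℝ) := by
      rw [← Real.rpow_natCast, ← Real.rpow_mul hA0.le]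
      norm_num
    rw [h8]
    exact Real.rpow_lt_rpow (by positivity) hqA (by norm_num)
  have hQ1 : (1 : ℝ) ≤ (q : ℝ) ^ (24 / 5 : ℝ) := Real.one_le_rpow hq1 (by norm_num)
  have h9 : Real.exp 1 * C * ((|M| + 2) * (q : ℝ) ^ (24 / 5 : ℝ)) < Real.exp 1 * C * (1 + J) := by
    calc Real.exp 1 * C * ((|M| + 2) * (q : ℝ) ^ (24 / 5 : ℝ)) = (q : ℝ) ^ (24 / 5 : ℝ) * A := by
          rw [hA]; ring
      _ < (q : ℝ) ^ (24 / 5 : ℝ) * (q : ℝ) ^ (1 / 5 : ℝ) := by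
          apply mul_lt_mul_of_pos_left hAq; positivity
      _ = (q : ℝ) ^ 5 := hq5.symm
      _ ≤ _ := hb2
  have h10 : (|M| + 2) * (q : ℝ) ^ (24 / 5 : ℝ) < 1 + J :=
    lt_of_mul_lt_mul_left h9 (by positivity)
  have h11 : M * (q : ℝ) ^ (24 / 5 : ℝ) ≤ |M| * (q : ℝ) ^ (24 / 5 : ℝ) :=
    mul_le_mul_of_nonneg_right (le_abs_self M) (by positivity)
  nlinarith

end Pool.Agent.H337_barnes
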