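import Pool.Agent.H337_barnes.Stmts

/-!
# Part POL: the polar part on the line `Re s = 4`
-/

set_option autoImplicit false

namespace Pool.Agent.H337_barnes

open Complex MeasureTheory Filter Topology

noncomputable section

namespace POLaux

theorem norm_ker4 (κ x t : ℝ) (hx : 0 < x) :
    ‖ker κ x (4 + t * I)‖ = x ^ 4 * (Real.exp (8 * κ ^ 2) * Real.exp (-(κ ^ 2 / 2) * t ^ 2)) := by
  unfold ker
  rw [Complex.norm_exp]
  have h1 : ((κ : ℂ) ^ 2 * (4 + t * I) ^ 2 / 2 + (4 + t * I) * (Real.log x : ℝ)) =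
      ((κ ^ 2 * (16 - t ^ 2) / 2 + 4 * Real.log x : ℝ) : ℂ) +
        ((4 * κ ^ 2 * t + t * Real.log x : ℝ) : ℂ) * I := by
    push_cast
    have hI : I ^ 2 = -1 := I_sq
    linear_combination ((κ : ℂ) ^ 2 * (t : ℂ) ^ 2 / 2) * hI
  rw [h1, Complex.add_re, Complex.ofReal_re, Complex.re_ofReal_mul, Complex.I_re, mul_zero,
    add_zero]
  have h2 : κ ^ 2 * (16 - t ^ 2) / 2 + 4 * Real.log x =
      4 * Real.log x + (8 * κ ^ 2 + -(κ ^ 2 / 2) * t ^ 2) := by ring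
  rw [h2, Real.exp_add, Real.exp_add]
  congr 1
  have h3 : (4 : ℝ) * Real.log x = ((4 : ℕ) : ℝ) * Real.log x := by norm_num
  rw [h3, Real.exp_nat_mul, Real.exp_log hx]

theorem den_ge (t : ℝ) (k : Fin 3) :
    Real.sqrt (1 + t ^ 2) ≤ ‖(4 + (t : ℂ) * I) - ((k : ℕ) + 1 : ℂ)‖ := by
  have e : (4 + (t : ℂ) * I) - ((k : ℕ) + 1 : ℂ) = ((3 - (k : ℕ) : ℝ) : ℂ) + (t : ℂ) * I := by
    push_cast; ring
  rw [e, Complex.norm_add_mul_I]
  apply Real.sqrt_le_sqrt
  have hk : ((k : ℕ) : ℝ) ≤ 2 := by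
    have := k.isLt
    have : (k : ℕ) ≤ 2 := by omega
    exact_mod_cast this
  nlinarith

theorem pol_le (c : Fin 3 → ℂ) (t : ℝ) :
    ‖pol c (4 + t * I)‖ ≤ (∑ k, ‖c k‖) * (Real.sqrt (1 + t ^ 2))⁻¹ := by
  unfold pol
  refine (norm_sum_le _ _).trans ?_
  rw [Finset.sum_mul]
  apply Finset.sum_le_sum
  intro k _
  rw [norm_div, div_eq_mul_inv]
  apply mul_le_mul_of_nonneg_left _ (norm_nonneg _)
  apply inv_anti₀ _ (den_ge t k)
  positivity

theorem amgm (κ t : ℝ) (hκ : 0 < κ) :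
    (Real.sqrt (1 + t ^ 2))⁻¹ ≤ (Real.sqrt κ + (Real.sqrt κ)⁻¹ * (1 + t ^ 2)⁻¹) / 2 := by
  set a := Real.sqrt κ with ha
  have ha0 : 0 < a := Real.sqrt_pos.mpr hκ
  have h1 : 0 < 1 + t ^ 2 := by positivity
  set r := (Real.sqrt (1 + t ^ 2))⁻¹ with hr
  have hr2 : (1 + t ^ 2)⁻¹ = r ^ 2 := by
    rw [hr, inv_pow, Real.sq_sqrt h1.le]
  rw [hr2]
  have h : 0 ≤ (a - r) ^ 2 := sq_nonneg _
  have h2 : 2 * r * a ≤ a * a + r ^ 2 := by nlinarith
  have h3 : (a + a⁻¹ * r ^ 2) / 2 = (a * a + r ^ 2) / (2 * a) := by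
    field_simp
  rw [h3, le_div_iff₀ (by positivity)]
  linarith

end POLaux

open POLaux in
theorem t_POL : S_POL := by
  intro c
  set A : ℝ := ∑ k, ‖c k‖ with hA
  have hA0 : 0 ≤ A := Finset.sum_nonneg fun _ _ => norm_nonneg _
  refine ⟨A * Real.exp 8 * (Real.sqrt (2 * Real.pi) + Real.pi) / (2 * Real.sqrt (2 * Real.pi)), ?_⟩
  intro κ x hκ hκ1 hx
  have hb : 0 < κ ^ 2 / 2 := by positivity
  set g : ℝ → ℝ := fun t => (A * Real.exp 8 * x ^ 4 / 2) *
    (Real.sqrt κ * Real.exp (-(κ ^ 2 / 2) * t ^ 2) + (Real.sqrt κ)⁻¹ * (1 + t ^ 2)⁻¹) with hg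
  have ig1 : Integrable fun t : ℝ => Real.sqrt κ * Real.exp (-(κ ^ 2 / 2) * t ^ 2) :=
    (integrable_exp_neg_mul_sq hb).const_mul _
  have ig2 : Integrable fun t : ℝ => (Real.sqrt κ)⁻¹ * (1 + t ^ 2)⁻¹ :=
    integrable_inv_one_add_sq.const_mul _
  have ig : Integrable g := (ig1.add ig2).const_mul _
  have hle : ∀ t : ℝ, ‖pol c (4 + t * I) * ker κ x (4 + t * I)‖ ≤ g t := by
    intro t
    rw [norm_mul, norm_ker4 κ x t hx]
    have h1 := pol_le c t
    have h2 := amgm κ t hκ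
    have hκ2 : κ ^ 2 ≤ 1 := by nlinarith
    have h3 : Real.exp (8 * κ ^ 2) ≤ Real.exp 8 := Real.exp_le_exp.mpr (by linarith)
    have h4 : Real.exp (-(κ ^ 2 / 2) * t ^ 2) ≤ 1 := by
      rw [Real.exp_le_one_iff]
      have : 0 ≤ κ ^ 2 / 2 * t ^ 2 := by positivity
      linarith
    have h5 : 0 < Real.exp (-(κ ^ 2 / 2) * t ^ 2) := Real.exp_pos _
    set G := Real.exp (-(κ ^ 2 / 2) * t ^ 2) with hG
    have h6 : 0 < (Real.sqrt κ)⁻¹ * (1 + t ^ 2)⁻¹ := by positivity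
    calc ‖pol c (4 + t * I)‖ * (x ^ 4 * (Real.exp (8 * κ ^ 2) * G))
        ≤ (A * ((Real.sqrt κ + (Real.sqrt κ)⁻¹ * (1 + t ^ 2)⁻¹) / 2)) *
          (x ^ 4 * (Real.exp 8 * G)) := by
          apply mul_le_mul
          · exact h1.trans (mul_le_mul_of_nonneg_left h2 hA0)
          · apply mul_le_mul_of_nonneg_left _ (by positivity)
            exact mul_le_mul_of_nonneg_right h3 h5.le
          · positivity
          · positivity
      _ = (A * Real.exp 8 * x ^ 4 / 2) *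
          (Real.sqrt κ * G + ((Real.sqrt κ)⁻¹ * (1 + t ^ 2)⁻¹) * G) := by ring
      _ ≤ (A * Real.exp 8 * x ^ 4 / 2) *
          (Real.sqrt κ * G + ((Real.sqrt κ)⁻¹ * (1 + t ^ 2)⁻¹) * 1) := by
          apply mul_le_mul_of_nonneg_left _ (by positivity)
          have := mul_le_mul_of_nonneg_left h4 h6.le
          linarith
      _ = g t := by simp only [hg, mul_one]; rfl
  have hint : ‖∫ t : ℝ, pol c (4 + t * I) * ker κ x (4 + t * I)‖ ≤ ∫ t, g t :=
    norm_integral_le_of_norm_le ig (Filter.Eventually.of_forall hle)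
  have hgv : ∫ t, g t = (A * Real.exp 8 * x ^ 4 / 2) *
      (Real.sqrt κ * (Real.sqrt (2 * Real.pi) / κ) + (Real.sqrt κ)⁻¹ * Real.pi) := by
    simp only [hg]
    rw [integral_const_mul, integral_add ig1 ig2, integral_const_mul, integral_const_mul,
      integral_gaussian, integral_univ_inv_one_add_sq]
    have : Real.pi / (κ ^ 2 / 2) = (2 * Real.pi) / κ ^ 2 := by field_simp
    rw [this, Real.sqrt_div (by positivity), Real.sqrt_sq hκ.le]
  rw [norm_mul, Complex.norm_real, Real.norm_of_nonneg (by positivity)]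
  calc κ / Real.sqrt (2 * Real.pi) * ‖∫ t : ℝ, pol c (4 + t * I) * ker κ x (4 + t * I)‖
      ≤ κ / Real.sqrt (2 * Real.pi) * ((A * Real.exp 8 * x ^ 4 / 2) *
      (Real.sqrt κ * (Real.sqrt (2 * Real.pi) / κ) + (Real.sqrt κ)⁻¹ * Real.pi)) := by
        apply mul_le_mul_of_nonneg_left _ (by positivity)
        rw [← hgv]; exact hint
    _ = _ := by
        have hs : 0 < Real.sqrt κ := Real.sqrt_pos.mpr hκ
        have hp : 0 < Real.sqrt (2 * Real.pi) := Real.sqrt_pos.mpr (by positivity)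
        have hk : κ = Real.sqrt κ * Real.sqrt κ := (Real.mul_self_sqrt hκ.le).symm
        set a := Real.sqrt κ with ha
        rw [hk]
        field_simp

end

end Pool.Agent.H337_barnes
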