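import Pool.Agent.H337_barnes.Stmts

/-!
# Part SHI: the shift of the contour
-/

set_option autoImplicit false

namespace Pool.Agent.H337_barnes

open Complex MeasureTheory Filter Topology

noncomputable section

namespace SHIaux

theorem norm_ker (κ x : ℝ) (s : ℂ) :
    ‖ker κ x s‖ = Real.exp (κ ^ 2 * (s.re ^ 2 - s.im ^ 2) / 2 + s.re * Real.log x) := by
  unfold ker
  rw [Complex.norm_exp]
  congr 1
  have h1 : ((κ : ℂ) ^ 2 * s ^ 2 / 2 + s * (Real.log x : ℝ)) =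
      ((κ ^ 2 / 2 : ℝ) : ℂ) * s ^ 2 + ((Real.log x : ℝ) : ℂ) * s := by
    push_cast; ring
  rw [h1, Complex.add_re, Complex.re_ofReal_mul, Complex.re_ofReal_mul, sq s, Complex.mul_re]
  ring

theorem differentiable_ker (κ x : ℝ) : Differentiable ℂ (ker κ x) := by
  unfold ker
  fun_prop

theorem norm_ker_le (κ x : ℝ) (s : ℂ) (h1 : 3 / 2 ≤ s.re) (h2 : s.re ≤ 4) :
    ‖ker κ x s‖ ≤ Real.exp (8 * κ ^ 2 + 4 * |Real.log x|) * Real.exp (-(κ ^ 2 * s.im ^ 2 / 2)) := by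
  rw [norm_ker, ← Real.exp_add]
  apply Real.exp_le_exp.mpr
  have ha : s.re ^ 2 ≤ 16 := by nlinarith
  have hb : s.re * Real.log x ≤ 4 * |Real.log x| := by
    calc s.re * Real.log x ≤ s.re * |Real.log x| :=
          mul_le_mul_of_nonneg_left (le_abs_self _) (by linarith)
      _ ≤ 4 * |Real.log x| := mul_le_mul_of_nonneg_right h2 (abs_nonneg _)
  have hc : κ ^ 2 * s.re ^ 2 ≤ κ ^ 2 * 16 := mul_le_mul_of_nonneg_left ha (sq_nonneg _)
  nlinarith

theorem quad_le (κ t : ℝ) (hκ : 0 < κ) :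
    4 * |t| + -(κ ^ 2 * t ^ 2 / 2) ≤ 16 / κ ^ 2 + -(κ ^ 2 / 4) * t ^ 2 := by
  have h : 0 ≤ (κ * |t| / 2 - 4 / κ) ^ 2 := sq_nonneg _
  have e : (κ * |t| / 2 - 4 / κ) ^ 2 = κ ^ 2 * t ^ 2 / 4 - 4 * |t| + 16 / κ ^ 2 := by
    have : κ ≠ 0 := hκ.ne'
    rw [← sq_abs t]
    field_simp
    ring
  rw [e] at h
  linarith

theorem bound (E : ℂ → ℂ) (C : ℝ)
    (hC : ∀ s : ℂ, 3 / 2 ≤ s.re → s.re ≤ 4 → ‖E s‖ ≤ C * Real.exp (4 * |s.im|))
    (κ x : ℝ) (hκ : 0 < κ) :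
    ∃ M : ℝ, ∀ s : ℂ, 3 / 2 ≤ s.re → s.re ≤ 4 →
      ‖E s * ker κ x s‖ ≤ M * Real.exp (-(κ ^ 2 / 4) * s.im ^ 2) := by
  refine ⟨C * Real.exp (8 * κ ^ 2 + 4 * |Real.log x|) * Real.exp (16 / κ ^ 2), ?_⟩
  intro s h1 h2
  have hC0 : 0 ≤ C := by
    have := hC s h1 h2
    have h3 : 0 ≤ C * Real.exp (4 * |s.im|) := le_trans (norm_nonneg _) this
    exact nonneg_of_mul_nonneg_left h3 (Real.exp_pos _)
  have ha := hC s h1 h2
  have hb := norm_ker_le κ x s h1 h2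
  rw [norm_mul]
  calc ‖E s‖ * ‖ker κ x s‖
      ≤ (C * Real.exp (4 * |s.im|)) *
        (Real.exp (8 * κ ^ 2 + 4 * |Real.log x|) * Real.exp (-(κ ^ 2 * s.im ^ 2 / 2))) :=
        mul_le_mul ha hb (norm_nonneg _) (by positivity)
    _ = C * Real.exp (8 * κ ^ 2 + 4 * |Real.log x|) *
        Real.exp (4 * |s.im| + -(κ ^ 2 * s.im ^ 2 / 2)) := by
        rw [Real.exp_add (4 * |s.im|)]; ring
    _ ≤ C * Real.exp (8 * κ ^ 2 + 4 * |Real.log x|) *
        Real.exp (16 / κ ^ 2 + -(κ ^ 2 / 4) * s.im ^ 2) := by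
        apply mul_le_mul_of_nonneg_left _ (by positivity)
        exact Real.exp_le_exp.mpr (quad_le κ s.im hκ)
    _ = _ := by rw [Real.exp_add (16 / κ ^ 2)]; ring

theorem integrable_line (f : ℂ → ℂ) (hf : Differentiable ℂ f) (M b : ℝ) (hb : 0 < b)
    (H : ∀ s : ℂ, 3 / 2 ≤ s.re → s.re ≤ 4 → ‖f s‖ ≤ M * Real.exp (-b * s.im ^ 2))
    (σ : ℝ) (h1 : 3 / 2 ≤ σ) (h2 : σ ≤ 4) :
    Integrable fun t : ℝ => f (σ + t * I) := by
  have hg : Integrable fun t : ℝ => M * Real.exp (-b * t ^ 2) :=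
    (integrable_exp_neg_mul_sq hb).const_mul M
  refine hg.mono' ?_ ?_
  · have hc : Continuous fun t : ℝ => f (σ + t * I) :=
      hf.continuous.comp (by fun_prop)
    exact hc.aestronglyMeasurable
  · refine Filter.Eventually.of_forall fun t => ?_
    have := H (σ + t * I) (by simpa using h1) (by simpa using h2)
    simpa using this

theorem shift (f : ℂ → ℂ) (hf : Differentiable ℂ f) (M b : ℝ) (hb : 0 < b)
    (H : ∀ s : ℂ, 3 / 2 ≤ s.re → s.re ≤ 4 → ‖f s‖ ≤ M * Real.exp (-b * s.im ^ 2)) :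
    ∫ t : ℝ, f (((4 : ℝ) : ℂ) + t * I) = ∫ t : ℝ, f (((3 / 2 : ℝ) : ℂ) + t * I) := by
  have i4 := integrable_line f hf M b hb H 4 (by norm_num) le_rfl
  have i3 := integrable_line f hf M b hb H (3 / 2) le_rfl (by norm_num)
  have hn : Tendsto (fun T : ℝ => -T) atTop atBot := tendsto_neg_atTop_atBot
  have l4 := intervalIntegral_tendsto_integral (μ := volume) i4 hn tendsto_id
  have l3 := intervalIntegral_tendsto_integral (μ := volume) i3 hn tendsto_id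
  -- the horizontal sides
  have hz : Tendsto (fun T : ℝ => (M * Real.exp (-b * T ^ 2)) * |4 - (3 / 2 : ℝ)|) atTop (𝓝 0) := by
    have h1 : Tendsto (fun T : ℝ => Real.exp (-b * T ^ 2)) atTop (𝓝 0) := by
      apply Real.tendsto_exp_atBot.comp
      have h2 : Tendsto (fun T : ℝ => T ^ 2) atTop atTop := tendsto_pow_atTop (by norm_num)
      exact h2.const_mul_atTop_of_neg (by linarith)
    have h3 := (h1.const_mul M).mul_const |4 - (3 / 2 : ℝ)|
    simpa using h3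
  have hor (ε : ℝ) (hε : ε ^ 2 = 1) :
      Tendsto (fun T : ℝ => ∫ y in (3 / 2 : ℝ)..4, f (y + ((ε * T : ℝ) : ℂ) * I)) atTop (𝓝 0) := by
    apply squeeze_zero_norm _ hz
    intro T
    apply intervalIntegral.norm_integral_le_of_norm_le_const
    intro y hy
    rw [Set.uIoc_of_le (by norm_num)] at hy
    have := H (y + ((ε * T : ℝ) : ℂ) * I) (by simpa using hy.1.le) (by simpa using hy.2)
    have e : ((y : ℂ) + ((ε * T : ℝ) : ℂ) * I).im = ε * T := by
      rw [Complex.add_im, Complex.ofReal_im, Complex.im_ofReal_mul, Complex.I_im]; ring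
    rw [e, mul_pow, hε, one_mul] at this
    exact this
  have hp := hor 1 (by norm_num)
  have hm := hor (-1) (by norm_num)
  have key : ∀ T : ℝ,
      (∫ y in (3 / 2 : ℝ)..4, f (y + ((-1 * T : ℝ) : ℂ) * I)) -
        (∫ y in (3 / 2 : ℝ)..4, f (y + ((1 * T : ℝ) : ℂ) * I)) +
        I * (∫ t in (-T)..(id T), f (((4 : ℝ) : ℂ) + t * I)) -
        I * (∫ t in (-T)..(id T), f (((3 / 2 : ℝ) : ℂ) + t * I)) = 0 := by
    intro T
    have h := Complex.integral_boundary_rect_eq_zero_of_differentiableOn f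
      ⟨3 / 2, -T⟩ ⟨4, T⟩ hf.differentiableOn
    simp only [smul_eq_mul] at h
    simpa using h
  have lim := ((hm.sub hp).add (l4.const_mul I)).sub (l3.const_mul I)
  have lim0 : Tendsto (fun _ : ℝ => (0 : ℂ)) atTop
      (𝓝 (0 - 0 + I * (∫ t : ℝ, f (((4 : ℝ) : ℂ) + t * I)) -
        I * (∫ t : ℝ, f (((3 / 2 : ℝ) : ℂ) + t * I)))) := by
    refine lim.congr fun T => ?_
    exact key T
  have e := tendsto_nhds_unique lim0 tendsto_const_nhds
  have e2 : I * ((∫ t : ℝ, f (((4 : ℝ) : ℂ) + t * I)) -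
      (∫ t : ℝ, f (((3 / 2 : ℝ) : ℂ) + t * I))) = 0 := by
    rw [mul_sub]
    simpa using e
  rcases mul_eq_zero.mp e2 with h | h
  · exact absurd h I_ne_zero
  · exact sub_eq_zero.mp h

end SHIaux

open SHIaux in
theorem t_SHI : S_SHI := by
  intro E hE ⟨C, hC⟩ κ x hκ hx
  obtain ⟨M, hM⟩ := bound E C hC κ x hκ
  have hf : Differentiable ℂ (fun s => E s * ker κ x s) := hE.mul (differentiable_ker κ x)
  have hb : 0 < κ ^ 2 / 4 := by positivity
  have i4 := integrable_line _ hf M _ hb hM 4 (by norm_num) le_rfl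
  have i3 := integrable_line _ hf M _ hb hM (3 / 2) le_rfl (by norm_num)
  have sh := shift _ hf M _ hb hM
  push_cast at i4 i3 sh
  exact ⟨i4, i3, sh⟩

end

end Pool.Agent.H337_barnes
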