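import Pool.Agent.H337_barnes.Stmts

/-!
# Barnes project, parts SUM and GEN

Convergence of `∑ λ ^ (-σ)` for `σ > 3`, and the generating function `∑ exp (-λ u)`, for the numbers
`λ = 1 + m · w`, `m : Fin 3 → ℕ`.
-/

set_option autoImplicit false

namespace Pool.Agent.H337_barnes

open Complex

/-- The equivalence between triples and functions on `Fin 3`. -/
def e3 : ℕ × ℕ × ℕ ≃ (Fin 3 → ℕ) where
  toFun p := ![p.1, p.2.1, p.2.2]
  invFun m := (m 0, m 1, m 2)
  left_inv p := by simp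
  right_inv m := by
    funext j
    fin_cases j <;> rfl

/-- Product of three nonnegative series over `Fin 3 → ℕ`. -/
theorem hasSum_prod3 {f : Fin 3 → ℕ → ℝ} {a : Fin 3 → ℝ} (hf : ∀ j, HasSum (f j) (a j))
    (h0 : ∀ j n, 0 ≤ f j n) :
    HasSum (fun m : Fin 3 → ℕ => ∏ j, f j (m j)) (∏ j, a j) := by
  have h12 : Summable fun x : ℕ × ℕ => f 1 x.1 * f 2 x.2 :=
    (hf 1).summable.mul_of_nonneg (hf 2).summable (h0 1) (h0 2)
  have H12 : HasSum (fun x : ℕ × ℕ => f 1 x.1 * f 2 x.2) (a 1 * a 2) :=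
    (hf 1).mul (hf 2) h12
  have h012 : Summable fun x : ℕ × (ℕ × ℕ) => f 0 x.1 * (f 1 x.2.1 * f 2 x.2.2) :=
    (hf 0).summable.mul_of_nonneg h12 (h0 0) (fun x => mul_nonneg (h0 1 _) (h0 2 _))
  have H : HasSum (fun x : ℕ × (ℕ × ℕ) => f 0 x.1 * (f 1 x.2.1 * f 2 x.2.2))
      (a 0 * (a 1 * a 2)) := (hf 0).mul H12 h012
  rw [← e3.hasSum_iff]
  have h1 : ((fun m : Fin 3 → ℕ => ∏ j, f j (m j)) ∘ e3)
      = fun x : ℕ × (ℕ × ℕ) => f 0 x.1 * (f 1 x.2.1 * f 2 x.2.2) := by
    funext x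
    simp only [Function.comp, Fin.prod_univ_three, e3, Equiv.coe_fn_mk]
    simp [mul_assoc]
  rw [h1, Fin.prod_univ_three, mul_assoc]
  exact H

theorem t_GEN : S_GEN := by
  intro w hw u hu
  have hgeo : ∀ j, HasSum (fun n : ℕ => (Real.exp (-(w j * u))) ^ n)
      ((1 - Real.exp (-(w j * u)))⁻¹) := by
    intro j
    apply hasSum_geometric_of_lt_one (Real.exp_pos _).le
    rw [Real.exp_lt_one_iff]
    have := mul_pos (hw j) hu
    linarith
  have H := (hasSum_prod3 (f := fun j n => (Real.exp (-(w j * u))) ^ n) hgeo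
    (fun j n => pow_nonneg (Real.exp_pos _).le n)).mul_left (Real.exp (-u))
  refine H.congr_fun ?_ 
  intro m
  simp only [lam]
  rw [Fin.prod_univ_three, Fin.sum_univ_three, ← Real.exp_nat_mul, ← Real.exp_nat_mul,
    ← Real.exp_nat_mul, ← Real.exp_add, ← Real.exp_add, ← Real.exp_add]
  congr 1
  ring

/-- Lower bound for `λ`. -/
theorem lam_lower (w : Fin 3 → ℝ) (hw : ∀ j, 0 < w j) :
    ∃ c : ℝ, 0 < c ∧ ∀ (m : Fin 3 → ℕ) (j : Fin 3), c * ((m j : ℝ) + 1) ≤ lam w m := by
  refine ⟨min 1 (min (w 0) (min (w 1) (w 2))), ?_, ?_⟩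
  · exact lt_min one_pos (lt_min (hw 0) (lt_min (hw 1) (hw 2)))
  · intro m j
    set c := min 1 (min (w 0) (min (w 1) (w 2))) with hc
    have hc1 : c ≤ 1 := min_le_left _ _
    have hcj : c ≤ w j := by
      fin_cases j
      · exact (min_le_right _ _).trans (min_le_left _ _)
      · exact (min_le_right _ _).trans ((min_le_right _ _).trans (min_le_left _ _))
      · exact (min_le_right _ _).trans ((min_le_right _ _).trans (min_le_right _ _))
    have h1 : c * (m j : ℝ) ≤ (m j : ℝ) * w j := by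
      rw [mul_comm]
      exact mul_le_mul_of_nonneg_left hcj (Nat.cast_nonneg _)
    have h2 : (m j : ℝ) * w j ≤ ∑ i, (m i : ℝ) * w i :=
      Finset.single_le_sum (f := fun i => (m i : ℝ) * w i)
        (fun i _ => mul_nonneg (Nat.cast_nonneg _) (hw i).le) (Finset.mem_univ j)
    unfold lam
    linarith

theorem t_SUM : S_SUM := by
  intro w hw σ hσ
  obtain ⟨c, hc, hlow⟩ := lam_lower w hw
  have hp : Summable fun n : ℕ => ((n : ℝ) + 1) ^ (-(σ / 3)) := by
    have h1 : Summable fun n : ℕ => (n : ℝ) ^ (-(σ / 3)) :=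
      Real.summable_nat_rpow.mpr (by linarith)
    have h2 := (summable_nat_add_iff 1).mpr h1
    simpa using h2
  have hprod : Summable fun m : Fin 3 → ℕ => ∏ j, ((m j : ℝ) + 1) ^ (-(σ / 3)) :=
    (hasSum_prod3 (f := fun _ n => ((n : ℝ) + 1) ^ (-(σ / 3))) (fun _ => hp.hasSum)
      (fun _ n => Real.rpow_nonneg (by positivity) _)).summable
  refine Summable.of_nonneg_of_le ?_ ?_ (hprod.mul_left (c ^ (-σ)))
  · intro m
    apply Real.rpow_nonneg
    have := hlow m 0
    have h3 : 0 ≤ c * ((m 0 : ℝ) + 1) := by positivity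
    linarith
  · intro m
    have hlampos : 0 < lam w m := lt_of_lt_of_le (by positivity) (hlow m 0)
    have hj : ∀ j : Fin 3, (lam w m) ^ (-(σ / 3)) ≤ (c * ((m j : ℝ) + 1)) ^ (-(σ / 3)) := by
      intro j
      exact Real.rpow_le_rpow_of_nonpos (by positivity) (hlow m j) (by linarith)
    have h1 : (lam w m) ^ (-σ) = ∏ _j : Fin 3, (lam w m) ^ (-(σ / 3)) := by
      rw [Fin.prod_univ_three, ← Real.rpow_add hlampos, ← Real.rpow_add hlampos]
      congr 1
      ring
    have h2 : c ^ (-σ) = ∏ _j : Fin 3, c ^ (-(σ / 3)) := by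
      rw [Fin.prod_univ_three, ← Real.rpow_add hc, ← Real.rpow_add hc]
      congr 1
      ring
    rw [h1, h2, ← Finset.prod_mul_distrib]
    apply Finset.prod_le_prod
    · intro j _
      exact Real.rpow_nonneg hlampos.le _
    · intro j _
      refine (hj j).trans (le_of_eq ?_)
      rw [Real.mul_rpow hc.le (by positivity)]

end Pool.Agent.H337_barnes
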