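import Pool.Agent.H337_barnes.Stmts

set_option autoImplicit false

namespace Pool.Agent.H337_barnes

open Complex MeasureTheory

theorem norm_ker (κ x t : ℝ) (hx : 0 < x) :
    ‖ker κ x (3 / 2 + t * I)‖ =
      Real.exp (9 * κ ^ 2 / 8) * x ^ (3 / 2 : ℝ) * Real.exp (-(κ ^ 2 * t ^ 2 / 2)) := by
  have h1 : (κ : ℂ) ^ 2 * (3 / 2 + t * I) ^ 2 / 2 + (3 / 2 + t * I) * (Real.log x : ℝ) =
      ((κ ^ 2 * (9 / 4 - t ^ 2) / 2 + 3 / 2 * Real.log x : ℝ) : ℂ) +
        ((κ ^ 2 * (3 * t) / 2 + t * Real.log x : ℝ) : ℂ) * I := by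
    push_cast
    have hI : I ^ 2 = -1 := I_sq
    linear_combination (κ : ℂ) ^ 2 * t ^ 2 / 2 * hI
  unfold ker
  rw [h1, Complex.norm_exp]
  simp only [add_re, ofReal_re, mul_re, I_re, mul_zero, ofReal_im, I_im, mul_one, sub_self, add_zero]
  rw [Real.rpow_def_of_pos hx, ← Real.exp_add, ← Real.exp_add]
  congr 1
  ring

theorem t_UP : S_UP := by
  intro hSUM hGAU hSHI hPOL w E c hw hE hZ hgr
  obtain ⟨Cp, hCp⟩ := hPOL c
  refine ⟨|Cp| + Real.exp (9 / 8), ?_⟩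
  intro κ x hκ hκ1 hx
  obtain ⟨-, hint1, hcnt⟩ := hGAU hSUM w hw κ x hκ hx
  obtain ⟨hint2, hint3, hshift⟩ := hSHI E hE hgr κ x hκ hx
  set K : ℝ := Real.exp (9 * κ ^ 2 / 8) * x ^ (3 / 2 : ℝ) with hK
  have hKpos : 0 < K := by positivity
  have hnorm : ∀ t : ℝ, ‖E (3 / 2 + t * I) * ker κ x (3 / 2 + t * I)‖ =
      K * (‖E (3 / 2 + t * I)‖ * Real.exp (-(κ ^ 2 * t ^ 2 / 2))) := by
    intro t
    rw [norm_mul, norm_ker κ x t hx]
    ring
  have hint4 : Integrable fun t : ℝ => ‖E (3 / 2 + t * I)‖ * Real.exp (-(κ ^ 2 * t ^ 2 / 2)) := by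
    have h := hint3.norm.const_mul K⁻¹
    refine h.congr (Filter.Eventually.of_forall fun t => ?_)
    simp only [hnorm]
    field_simp
  refine ⟨hint4, ?_⟩
  set J : ℝ := ∫ t : ℝ, ‖E (3 / 2 + t * I)‖ * Real.exp (-(κ ^ 2 * t ^ 2 / 2)) with hJ
  have hJ0 : 0 ≤ J := integral_nonneg fun t => by positivity
  have hZE : ∀ t : ℝ, Z w (4 + t * I) = E (4 + t * I) + pol c (4 + t * I) := by
    intro t
    rw [hZ]
    simp; norm_num
  have hpolint : Integrable fun t : ℝ => pol c (4 + t * I) * ker κ x (4 + t * I) := by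
    have h := hint1.sub hint2
    refine h.congr (Filter.Eventually.of_forall fun t => ?_)
    simp only [Pi.sub_apply, hZE]
    ring
  have hsplit : ∫ t : ℝ, Z w (4 + t * I) * ker κ x (4 + t * I) =
      (∫ t : ℝ, E (3 / 2 + t * I) * ker κ x (3 / 2 + t * I)) +
        ∫ t : ℝ, pol c (4 + t * I) * ker κ x (4 + t * I) := by
    rw [← hshift, ← integral_add hint2 hpolint]
    refine integral_congr_ae (Filter.Eventually.of_forall fun t => ?_)
    simp only [hZE]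
    ring
  have h2pi : 1 ≤ Real.sqrt (2 * Real.pi) := by
    rw [Real.one_le_sqrt]
    nlinarith [Real.pi_gt_three]
  have hE1 : ‖((κ / Real.sqrt (2 * Real.pi) : ℝ) : ℂ) *
      ∫ t : ℝ, E (3 / 2 + t * I) * ker κ x (3 / 2 + t * I)‖ ≤
        Real.exp (9 / 8) * (x ^ (3 / 2 : ℝ) * (κ * J)) := by
    rw [norm_mul, Complex.norm_real, Real.norm_of_nonneg (by positivity)]
    have h1 : ‖∫ t : ℝ, E (3 / 2 + t * I) * ker κ x (3 / 2 + t * I)‖ ≤ K * J := by
      refine (norm_integral_le_integral_norm _).trans (le_of_eq ?_)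
      rw [hJ, ← integral_const_mul]
      exact integral_congr_ae (Filter.Eventually.of_forall fun t => hnorm t)
    have h2 : κ / Real.sqrt (2 * Real.pi) ≤ κ := div_le_self hκ.le h2pi
    have h3 : K ≤ Real.exp (9 / 8) * x ^ (3 / 2 : ℝ) := by
      rw [hK]
      refine mul_le_mul_of_nonneg_right ?_ (by positivity)
      apply Real.exp_le_exp.2
      nlinarith
    calc κ / Real.sqrt (2 * Real.pi) * ‖∫ t : ℝ, E (3 / 2 + t * I) * ker κ x (3 / 2 + t * I)‖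
        ≤ κ * (Real.exp (9 / 8) * x ^ (3 / 2 : ℝ) * J) := by
          refine mul_le_mul h2 (h1.trans (mul_le_mul_of_nonneg_right h3 hJ0)) (norm_nonneg _) hκ.le
      _ = _ := by ring
  have hP := hCp κ x hκ hκ1 hx
  have hfin : ‖((cnt w κ x : ℝ) : ℂ)‖ ≤ Real.exp (9 / 8) * (x ^ (3 / 2 : ℝ) * (κ * J)) +
      Cp * (x ^ 4 * Real.sqrt κ) := by
    rw [hcnt, hsplit, mul_add]
    exact (norm_add_le _ _).trans (add_le_add hE1 hP)
  rw [Complex.norm_real] at hfin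
  have h4 : cnt w κ x ≤ ‖cnt w κ x‖ := le_abs_self _
  have h5 : 0 ≤ x ^ 4 * Real.sqrt κ := by positivity
  have h6 : 0 ≤ x ^ (3 / 2 : ℝ) * (κ * J) := by positivity
  have h7 : Cp * (x ^ 4 * Real.sqrt κ) ≤ |Cp| * (x ^ 4 * Real.sqrt κ) :=
    mul_le_mul_of_nonneg_right (le_abs_self _) h5
  have h8 : 0 ≤ Real.exp (9 / 8) := (Real.exp_pos _).le
  nlinarith [mul_nonneg h8 h5, mul_nonneg (abs_nonneg Cp) h6]

end Pool.Agent.H337_barnes
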