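import Pool.Agent.H337_barnes.Stmts

/-!
# Barnes project, parts UP and LB

The upper bound for the smooth counting function from the shifted contour, and the resulting lower
bound for the mean of the entire part on the line `Re s = 3 / 2`.
-/

set_option autoImplicit false

namespace Pool.Agent.H337_barnes

open Complex

/-- The norm of the kernel on the line `Re s = 3 / 2`. -/
theorem norm_ker_line (κ x : ℝ) (t : ℝ) :
    ‖ker κ x (3 / 2 + t * I)‖ =
      Real.exp (9 / 8 * κ ^ 2) * Real.exp (3 / 2 * Real.log x) *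
        Real.exp (-(κ ^ 2 * t ^ 2 / 2)) := by
  unfold ker
  rw [Complex.norm_exp, ← Real.exp_add, ← Real.exp_add]
  congr 1
  have h1 : ((κ : ℂ) ^ 2 * (3 / 2 + (t : ℂ) * I) ^ 2 / 2
      + (3 / 2 + (t : ℂ) * I) * ((Real.log x : ℝ) : ℂ))
      = ((9 / 8 * κ ^ 2 + 3 / 2 * Real.log x + -(κ ^ 2 * t ^ 2 / 2) : ℝ) : ℂ)
        + ((3 / 2 * κ ^ 2 * t + t * Real.log x : ℝ) : ℂ) * I := by
    push_cast
    linear_combination ((κ : ℂ) ^ 2 * (t : ℂ) ^ 2 / 2) * I_sq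
  rw [h1, Complex.add_re, Complex.ofReal_re, Complex.re_ofReal_mul, Complex.I_re]
  ring

theorem t_UP : S_UP := by
  intro hSUM hGAU hSHI hPOL w E c hw hE hcont hgrow
  obtain ⟨Cp, hCp⟩ := hPOL c
  refine ⟨|Cp| + Real.exp (9 / 8), ?_⟩
  intro κ x hκ hκ1 hx
  -- integrability on the line `3 / 2`
  have hint : MeasureTheory.Integrable
      fun t : ℝ => ‖E (3 / 2 + t * I)‖ * Real.exp (-(κ ^ 2 * t ^ 2 / 2)) := by
    have h1 := (hSHI E hE hgrow κ x hκ hx).2.1.norm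
    have h2 := h1.const_mul (Real.exp (9 / 8 * κ ^ 2) * Real.exp (3 / 2 * Real.log x))⁻¹
    refine h2.congr (Filter.Eventually.of_forall ?_)
    intro t
    simp only
    rw [norm_mul, norm_ker_line]
    have hpos : (Real.exp (9 / 8 * κ ^ 2) * Real.exp (3 / 2 * Real.log x)) ≠ 0 := by positivity
    field_simp
  refine ⟨hint, ?_⟩
  obtain ⟨hsumm, hintZ, hcnt⟩ := hGAU hSUM w hw κ x hκ hx
  obtain ⟨hint4, hint32, hshift⟩ := hSHI E hE hgrow κ x hκ hx
  have hZ : ∀ t : ℝ, Z w (4 + t * I) * ker κ x (4 + t * I)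
      = E (4 + t * I) * ker κ x (4 + t * I) + pol c (4 + t * I) * ker κ x (4 + t * I) := by
    intro t
    rw [← hcont (4 + t * I) (by simp; norm_num)]
    ring
  have hintP : MeasureTheory.Integrable
      fun t : ℝ => pol c (4 + t * I) * ker κ x (4 + t * I) := by
    refine (hintZ.sub hint4).congr (Filter.Eventually.of_forall ?_)
    intro t
    simp only [Pi.sub_apply]
    rw [hZ t]
    ring
  have hsplit : ∫ t : ℝ, Z w (4 + t * I) * ker κ x (4 + t * I)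
      = (∫ t : ℝ, E (3 / 2 + t * I) * ker κ x (3 / 2 + t * I))
        + ∫ t : ℝ, pol c (4 + t * I) * ker κ x (4 + t * I) := by
    rw [← hshift, ← MeasureTheory.integral_add hint4 hintP]
    apply MeasureTheory.integral_congr_ae
    exact Filter.Eventually.of_forall hZ
  set J : ℝ := ∫ t : ℝ, ‖E (3 / 2 + t * I)‖ * Real.exp (-(κ ^ 2 * t ^ 2 / 2)) with hJ
  have hJ0 : 0 ≤ J := MeasureTheory.integral_nonneg (fun t => by positivity)
  have hEle : ‖∫ t : ℝ, E (3 / 2 + t * I) * ker κ x (3 / 2 + t * I)‖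
      ≤ Real.exp (9 / 8) * x ^ (3 / 2 : ℝ) * J := by
    refine (MeasureTheory.norm_integral_le_integral_norm _).trans ?_
    have h1 : ∀ t : ℝ, ‖E (3 / 2 + t * I) * ker κ x (3 / 2 + t * I)‖
        = (Real.exp (9 / 8 * κ ^ 2) * Real.exp (3 / 2 * Real.log x)) *
          (‖E (3 / 2 + t * I)‖ * Real.exp (-(κ ^ 2 * t ^ 2 / 2))) := by
      intro t
      rw [norm_mul, norm_ker_line]
      ring
    simp_rw [h1]
    rw [MeasureTheory.integral_const_mul, ← hJ]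
    apply mul_le_mul_of_nonneg_right _ hJ0
    have h2 : Real.exp (3 / 2 * Real.log x) = x ^ (3 / 2 : ℝ) := by
      rw [Real.rpow_def_of_pos hx, mul_comm]
    rw [h2]
    apply mul_le_mul_of_nonneg_right _ (Real.rpow_nonneg hx.le _)
    apply Real.exp_le_exp.mpr
    nlinarith
  have hsq : 0 ≤ κ / Real.sqrt (2 * Real.pi) := by positivity
  have hsq1 : κ / Real.sqrt (2 * Real.pi) ≤ κ := by
    apply div_le_self hκ.le
    rw [Real.one_le_sqrt]
    nlinarith [Real.pi_gt_three]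
  have hmain : cnt w κ x ≤ ‖((cnt w κ x : ℝ) : ℂ)‖ := by
    rw [Complex.norm_real]
    exact le_abs_self _
  refine hmain.trans ?_
  rw [hcnt, hsplit, mul_add]
  refine (norm_add_le _ _).trans ?_
  have hP := hCp κ x hκ hκ1 hx
  have hA : ‖((κ / Real.sqrt (2 * Real.pi) : ℝ) : ℂ) *
      ∫ t : ℝ, E (3 / 2 + t * I) * ker κ x (3 / 2 + t * I)‖
      ≤ κ * (Real.exp (9 / 8) * x ^ (3 / 2 : ℝ) * J) := by
    rw [norm_mul, Complex.norm_real, Real.norm_of_nonneg hsq]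
    exact mul_le_mul hsq1 hEle (norm_nonneg _) hκ.le
  have hx4 : 0 ≤ x ^ 4 * Real.sqrt κ := by positivity
  have hx32 : 0 ≤ x ^ (3 / 2 : ℝ) * (κ * J) := by positivity
  have hexp : 0 ≤ Real.exp (9 / 8) := (Real.exp_pos _).le
  calc _ ≤ κ * (Real.exp (9 / 8) * x ^ (3 / 2 : ℝ) * J) + Cp * (x ^ 4 * Real.sqrt κ) :=
        add_le_add hA hP
    _ ≤ Real.exp (9 / 8) * (x ^ (3 / 2 : ℝ) * (κ * J)) + |Cp| * (x ^ 4 * Real.sqrt κ) := by
        apply add_le_add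
        · exact le_of_eq (by ring)
        · exact mul_le_mul_of_nonneg_right (le_abs_self _) hx4
    _ ≤ (|Cp| + Real.exp (9 / 8)) * (x ^ 4 * Real.sqrt κ + x ^ (3 / 2 : ℝ) * (κ * J)) := by
        have h1 : 0 ≤ |Cp| * (x ^ (3 / 2 : ℝ) * (κ * J)) := mul_nonneg (abs_nonneg _) hx32
        have h2 : 0 ≤ Real.exp (9 / 8) * (x ^ 4 * Real.sqrt κ) := mul_nonneg hexp hx4
        nlinarith

theorem t_LB : S_LB := by
  intro hSUM hGAU hSHI hPOL hUP hCLU θ hL h0 h1 E c hE hcont hgrow M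
  have hw : ∀ j : Fin 3, 0 < (![1, θ, θ ^ 2] : Fin 3 → ℝ) j := by
    intro j
    fin_cases j
    · simp
    · simpa using h0
    · simpa using pow_pos h0 2
  obtain ⟨C, hC⟩ := hUP hSUM hGAU hSHI hPOL ![1, θ, θ ^ 2] E c hw hE hcont hgrow
  -- a positive constant
  set C' : ℝ := max C 1 with hC'
  have hC'pos : 0 < C' := lt_of_lt_of_le one_pos (le_max_right _ _)
  set b : ℝ := Real.exp (-1) / C' with hb
  have hbpos : 0 < b := div_pos (Real.exp_pos _) hC'pos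
  obtain ⟨q, hq0, hq2, hcl⟩ := hCLU hSUM hGAU θ hL h0 h1 ⌈((2 + |M|) / b) ^ 5⌉₊
  have hq0' : ((2 + |M|) / b) ^ 5 ≤ (q : ℝ) :=
    (Nat.le_ceil _).trans (by exact_mod_cast hq0)
  have hq1 : (1 : ℝ) ≤ (q : ℝ) := by
    have : (2 : ℝ) ≤ (q : ℝ) := by exact_mod_cast hq2
    linarith
  have hqpos : (0 : ℝ) < (q : ℝ) := by linarith
  -- the fifth root
  obtain ⟨y, hy0, hy5⟩ : ∃ y : ℝ, 0 ≤ y ∧ y ^ 5 = (q : ℝ) :=
    ⟨(q : ℝ) ^ ((5 : ℕ) : ℝ)⁻¹, Real.rpow_nonneg hqpos.le _,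
      Real.rpow_inv_natCast_pow hqpos.le (by norm_num)⟩
  have hyb : (2 + |M|) / b ≤ y := by
    by_contra hlt
    push Not at hlt
    have := pow_lt_pow_left₀ hlt hy0 (n := 5) (by norm_num)
    rw [hy5] at this
    linarith
  have hy1 : 1 ≤ y := by
    by_contra hlt
    push Not at hlt
    have := pow_lt_one₀ hy0 hlt (n := 5) (by norm_num)
    rw [hy5] at this
    linarith
  have hypos : 0 < y := by linarith
  set κ : ℝ := ((q : ℝ) ^ 120)⁻¹ with hκ
  have hκy : κ = (y ^ 600)⁻¹ := by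
    rw [hκ, ← hy5, ← pow_mul]
  have hκpos : 0 < κ := by positivity
  have hκ1 : κ ≤ 1 := by
    rw [hκ]
    exact inv_le_one_of_one_le₀ (one_le_pow₀ hq1)
  refine ⟨κ, hκpos, hκ1, ?_⟩
  obtain ⟨_, hcnt⟩ := hC κ ((q : ℝ) ^ 20) hκpos hκ1 (by positivity)
  set J : ℝ := κ * ∫ t : ℝ, ‖E (3 / 2 + t * I)‖ * Real.exp (-(κ ^ 2 * t ^ 2 / 2)) with hJ
  have hJ0 : 0 ≤ J := mul_nonneg hκpos.le (MeasureTheory.integral_nonneg (fun t => by positivity))
  have hpow : κ ^ (-(1 / 25) : ℝ) = y ^ 24 := by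
    rw [hκy, Real.inv_rpow (by positivity), ← Real.rpow_neg (by positivity), neg_neg]
    have h1 : y ^ 600 = (y ^ 24) ^ 25 := by rw [← pow_mul]
    rw [h1]
    have h2 := Real.pow_rpow_inv_natCast (x := y ^ 24) (n := 25) (by positivity) (by norm_num)
    have h3 : (1 / 25 : ℝ) = ((25 : ℕ) : ℝ)⁻¹ := by norm_num
    rw [h3]
    exact h2
  have hsqrt : Real.sqrt κ = (y ^ 300)⁻¹ := by
    rw [hκy, Real.sqrt_inv]
    congr 1
    have h1 : y ^ 600 = (y ^ 300) ^ 2 := by rw [← pow_mul]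
    rw [h1]
    exact Real.sqrt_sq (by positivity)
  have hx32 : ((q : ℝ) ^ 20) ^ (3 / 2 : ℝ) = y ^ 150 := by
    have h1 : (q : ℝ) ^ 20 = (y ^ 50) ^ 2 := by rw [← hy5, ← pow_mul, ← pow_mul]
    rw [h1, ← Real.rpow_natCast (y ^ 50) 2, ← Real.rpow_mul (by positivity)]
    have h2 : ((2 : ℕ) : ℝ) * (3 / 2) = ((3 : ℕ) : ℝ) := by norm_num
    rw [h2, Real.rpow_natCast, ← pow_mul]
  have hx4 : ((q : ℝ) ^ 20) ^ 4 * Real.sqrt κ = y ^ 100 := by
    rw [hsqrt, ← hy5, ← pow_mul, ← pow_mul]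
    have : y ^ (5 * 20 * 4) = y ^ 100 * y ^ 300 := by rw [← pow_add]
    rw [this]
    field_simp
  have hq35 : (q : ℝ) ^ 35 = y ^ 175 := by rw [← hy5, ← pow_mul]
  have hcl' := hcl.trans hcnt
  rw [hx32, hx4, hq35] at hcl'
  rw [hpow]
  by_contra hle
  push Not at hle
  have hR0 : 0 ≤ y ^ 100 + y ^ 150 * J :=
    add_nonneg (pow_nonneg hy0 _) (mul_nonneg (pow_nonneg hy0 _) hJ0)
  have h2 : Real.exp (-1) * y ^ 175 ≤ C' * (y ^ 100 + y ^ 150 * J) :=
    hcl'.trans (mul_le_mul_of_nonneg_right (le_max_left _ _) hR0)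
  have h3 : b * y ^ 175 ≤ y ^ 100 + y ^ 150 * J := by
    rw [hb, div_mul_eq_mul_div, div_le_iff₀ hC'pos]
    linarith
  have h4 : y ^ 150 * J ≤ |M| * y ^ 174 := by
    have h5 : J ≤ |M| * y ^ 24 :=
      hle.trans (mul_le_mul_of_nonneg_right (le_abs_self _) (by positivity))
    calc y ^ 150 * J ≤ y ^ 150 * (|M| * y ^ 24) :=
          mul_le_mul_of_nonneg_left h5 (by positivity)
      _ = |M| * y ^ 174 := by ring
  have h5 : y ^ 100 ≤ y ^ 174 := pow_le_pow_right₀ hy1 (by norm_num)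
  have h6 : (b * y) * y ^ 174 ≤ (1 + |M|) * y ^ 174 := by
    calc (b * y) * y ^ 174 = b * y ^ 175 := by ring
      _ ≤ y ^ 100 + y ^ 150 * J := h3
      _ ≤ y ^ 174 + |M| * y ^ 174 := add_le_add h5 h4
      _ = (1 + |M|) * y ^ 174 := by ring
  have h7 : b * y ≤ 1 + |M| := le_of_mul_le_mul_right h6 (by positivity)
  have h8 : 2 + |M| ≤ b * y := by
    have := (div_le_iff₀ hbpos).mp hyb
    linarith
  linarith

end Pool.Agent.H337_barnes
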